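import Pool.Agent.H32.Torus.Metric

open MeasureTheory Filter Topology Complex Set
open scoped ContDiff ComplexOrder ComplexConjugate

namespace Pool.Agent.H32.Torus

variable {n : ℕ} {r : ℝ} (hr : 0 < r) {K : ℝ}

/-- the tube around the `j`-th coordinate plane through the bump -/
def tube (n : ℕ) (r : ℝ) (j : Fin n) : Set (Cn n) :=
  Set.pi univ fun i => if i = j then cell1 else boxO r

/-- the outer polybox -/
def pboxO (n : ℕ) (r : ℝ) : Set (Cn n) := Set.pi univ fun _ => boxO r

/-- the inner polybox -/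
def pboxI (n : ℕ) (r : ℝ) : Set (Cn n) := Set.pi univ fun _ => boxI r

lemma measurableSet_boxO (r : ℝ) : MeasurableSet (boxO r) :=
  measurableSet_reProdIm measurableSet_Ioo measurableSet_Ioo

lemma measurableSet_boxI (r : ℝ) : MeasurableSet (boxI r) :=
  measurableSet_reProdIm measurableSet_Icc measurableSet_Icc

lemma measurableSet_cell1 : MeasurableSet cell1 :=
  measurableSet_reProdIm measurableSet_Ico measurableSet_Ico

lemma volume_cell1 : volume cell1 = 1 := by
  unfold cell1
  rw [volume_reProdIm measurableSet_Ico measurableSet_Ico, Real.volume_Ico]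
  norm_num

include hr in
lemma volume_boxO : volume (boxO r) = ENNReal.ofReal (4 * r ^ 2) := by
  unfold boxO
  rw [volume_reProdIm measurableSet_Ioo measurableSet_Ioo, Real.volume_Ioo,
    ← ENNReal.ofReal_mul (by linarith)]
  congr 1
  ring

include hr in
lemma volume_boxI : volume (boxI r) = ENNReal.ofReal (r ^ 2) := by
  unfold boxI
  rw [volume_reProdIm measurableSet_Icc measurableSet_Icc, Real.volume_Icc,
    ← ENNReal.ofReal_mul (by linarith)]
  congr 1
  ring

lemma measurableSet_tube (j : Fin n) : MeasurableSet (tube n r j) := by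
  refine MeasurableSet.univ_pi fun i => ?_
  split_ifs
  · exact measurableSet_cell1
  · exact measurableSet_boxO r

lemma measurableSet_pboxO : MeasurableSet (pboxO n r) :=
  MeasurableSet.univ_pi fun _ => measurableSet_boxO r

lemma measurableSet_pboxI : MeasurableSet (pboxI n r) :=
  MeasurableSet.univ_pi fun _ => measurableSet_boxI r

include hr in
lemma volume_tube (j : Fin n) : volume (tube n r j) = ENNReal.ofReal ((4 * r ^ 2) ^ (n - 1)) := by
  unfold tube
  rw [volume_pi_pi, ← Finset.mul_prod_erase Finset.univ _ (Finset.mem_univ j), if_pos rfl,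
    volume_cell1, one_mul, Finset.prod_congr rfl (g := fun _ => ENNReal.ofReal (4 * r ^ 2))]
  · rw [Finset.prod_const, Finset.card_erase_of_mem (Finset.mem_univ j), Finset.card_univ,
      Fintype.card_fin, ENNReal.ofReal_pow (by positivity)]
  · intro i hi
    rw [if_neg (Finset.ne_of_mem_erase hi), volume_boxO hr]

include hr in
lemma volume_pboxO : volume (pboxO n r) = ENNReal.ofReal ((4 * r ^ 2) ^ n) := by
  unfold pboxO
  rw [volume_pi_pi]
  simp only [volume_boxO hr, Finset.prod_const, Finset.card_univ, Fintype.card_fin]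
  rw [ENNReal.ofReal_pow (by positivity)]

include hr in
lemma volume_pboxI : volume (pboxI n r) = ENNReal.ofReal ((r ^ 2) ^ n) := by
  unfold pboxI
  rw [volume_pi_pi]
  simp only [volume_boxI hr, Finset.prod_const, Finset.card_univ, Fintype.card_fin]
  rw [ENNReal.ofReal_pow (by positivity : (0 : ℝ) ≤ r ^ 2) n]

lemma rpow_exp_pos (hn : 2 ≤ n) : (0 : ℝ) < (n : ℝ) - 1 := by
  have : (2 : ℝ) ≤ n := by exact_mod_cast hn
  linarith

lemma root_pow (hn : 2 ≤ n) {y : ℝ} (hy : 0 ≤ y) : (y ^ (n - 1)) ^ (1 / ((n : ℝ) - 1)) = y := by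
  have hn1 : ((n - 1 : ℕ) : ℝ) = (n : ℝ) - 1 := by
    rw [Nat.cast_sub (by omega)]
    simp
  rw [← Real.rpow_natCast, ← Real.rpow_mul hy, hn1, mul_one_div_cancel (rpow_exp_pos hn).ne',
    Real.rpow_one]

/-- general bound -/
lemma lam_le_gen (hn : 2 ≤ n) (hK : 1 ≤ K) (i : Fin n) (z : Cn n) :
    lam hr K i z ≤ K ^ (n - 1) := by
  have hx := one_le_xx hr hK i z
  have hxp := xx_pos hr hK i z
  have he := rpow_exp_pos hn
  have hK0 : 0 ≤ K := by linarith
  unfold lam
  rw [div_le_iff₀ hxp]
  have h1 : PP hr K z ≤ xx hr K i z * (K ^ (n - 1)) ^ (n - 1) := by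
    unfold PP
    rw [← Finset.mul_prod_erase Finset.univ (fun j => xx hr K j z) (Finset.mem_univ i)]
    have h2 : ∏ j ∈ Finset.univ.erase i, xx hr K j z ≤ (K ^ (n - 1)) ^ (n - 1) := by
      calc ∏ j ∈ Finset.univ.erase i, xx hr K j z ≤ ∏ j ∈ Finset.univ.erase i, K ^ (n - 1) :=
            Finset.prod_le_prod (fun j _ => (xx_pos hr hK j z).le) fun j _ => xx_le hr hK j z
        _ = (K ^ (n - 1)) ^ (n - 1) := by
            rw [Finset.prod_const, Finset.card_erase_of_mem (Finset.mem_univ i), Finset.card_univ,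
              Fintype.card_fin]
    exact mul_le_mul_of_nonneg_left h2 hxp.le
  have h3 : xx hr K i z ≤ xx hr K i z ^ (n - 1) := by
    calc xx hr K i z = xx hr K i z ^ 1 := (pow_one _).symm
      _ ≤ xx hr K i z ^ (n - 1) := pow_le_pow_right₀ hx (by omega)
  calc PP hr K z ^ (1 / ((n : ℝ) - 1))
      ≤ (xx hr K i z ^ (n - 1) * (K ^ (n - 1)) ^ (n - 1)) ^ (1 / ((n : ℝ) - 1)) := by
        apply Real.rpow_le_rpow (PP_pos hr hK z).le _ (by positivity)
        refine h1.trans ?_
        gcongr
    _ = ((xx hr K i z * K ^ (n - 1)) ^ (n - 1)) ^ (1 / ((n : ℝ) - 1)) := by rw [mul_pow]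
    _ = xx hr K i z * K ^ (n - 1) := root_pow hn (by positivity)
    _ = K ^ (n - 1) * xx hr K i z := mul_comm _ _

lemma xx_eq_one (K : ℝ) {z : Cn n} {i j : Fin n} (hij : j ≠ i) (hj : kap hr (z j) = 0) :
    xx hr K i z = 1 := by
  unfold xx
  rw [Finset.prod_eq_zero (Finset.mem_erase.2 ⟨hij, Finset.mem_univ j⟩) hj]
  ring

/-- bound outside the polybox -/
lemma lam_le_mid (hn : 2 ≤ n) (hK : 1 ≤ K) {z : Cn n} {j : Fin n} (hj : kap hr (z j) = 0)
    (i : Fin n) : lam hr K i z ≤ K := by
  have he := rpow_exp_pos hn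
  have hK0 : 0 ≤ K := by linarith
  have h1 : PP hr K z = xx hr K j z := by
    unfold PP
    rw [← Finset.mul_prod_erase Finset.univ (fun j => xx hr K j z) (Finset.mem_univ j),
      Finset.prod_eq_one, mul_one]
    intro l hl
    exact xx_eq_one hr K (Finset.ne_of_mem_erase hl).symm hj
  have hx := one_le_xx hr hK i z
  have hxp := xx_pos hr hK i z
  unfold lam
  rw [h1, div_le_iff₀ hxp]
  calc xx hr K j z ^ (1 / ((n : ℝ) - 1)) ≤ (K ^ (n - 1)) ^ (1 / ((n : ℝ) - 1)) := by
        apply Real.rpow_le_rpow (xx_pos hr hK j z).le (xx_le hr hK j z) (by positivity)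
    _ = K := root_pow hn hK0
    _ ≤ K * xx hr K i z := by nlinarith

/-- bound outside the tubes -/
lemma lam_eq_far {z : Cn n} {j l : Fin n} (hjl : j ≠ l) (hj : kap hr (z j) = 0)
    (hl : kap hr (z l) = 0) (i : Fin n) : lam hr K i z = 1 := by
  have h1 : ∀ i, xx hr K i z = 1 := by
    intro i
    by_cases h : j = i
    · subst h
      exact xx_eq_one hr K hjl.symm hl
    · exact xx_eq_one hr K h hj
  unfold lam PP
  simp_rw [h1]
  simp

lemma mem_cell1_of {z : Cn n} (hz : z ∈ cell n) (j : Fin n) : z j ∈ cell1 := by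
  rw [cell_eq_pi] at hz
  exact hz j (mem_univ j)

lemma trace_pointwise (hn : 2 ≤ n) (hK : 1 ≤ K) {z : Cn n} (hz : z ∈ cell n) :
    ∑ i, lam hr K i z ≤ n + (∑ j, (tube n r j).indicator (fun _ => n * K) z) +
      (pboxO n r).indicator (fun _ => n * K ^ (n - 1)) z := by
  have hK0 : 0 ≤ K := by linarith
  have hnn : (0 : ℝ) ≤ n := Nat.cast_nonneg n
  have hs : 0 ≤ ∑ j, (tube n r j).indicator (fun _ => (n : ℝ) * K) z :=
    Finset.sum_nonneg fun j _ => indicator_nonneg (fun _ _ => by positivity) _
  have hb : 0 ≤ (pboxO n r).indicator (fun _ => (n : ℝ) * K ^ (n - 1)) z :=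
    indicator_nonneg (fun _ _ => by positivity) _
  have hsum : ∀ c : ℝ, (∀ i, lam hr K i z ≤ c) → ∑ i, lam hr K i z ≤ n * c := by
    intro c hc
    calc ∑ i, lam hr K i z ≤ ∑ _i : Fin n, c := Finset.sum_le_sum fun i _ => hc i
      _ = n * c := by simp
  by_cases hA : ∀ j, kap hr (z j) ≠ 0
  · have hmem : z ∈ pboxO n r := fun j _ => mem_boxO hr (mem_cell1_of hz j) (hA j)
    have h1 := hsum _ fun i => lam_le_gen hr hn hK i z
    rw [indicator_of_mem hmem]
    linarith
  · push Not at hA
    obtain ⟨j, hj⟩ := hA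
    by_cases hB : ∀ l, l ≠ j → kap hr (z l) ≠ 0
    · have hmem : z ∈ tube n r j := by
        intro l _
        by_cases h : l = j
        · simp only [h, if_true]
          exact mem_cell1_of hz j
        · simp only [h, if_false]
          exact mem_boxO hr (mem_cell1_of hz l) (hB l h)
      have h1 := hsum _ fun i => lam_le_mid hr hn hK hj i
      have h2 : (n : ℝ) * K ≤ ∑ j, (tube n r j).indicator (fun _ => (n : ℝ) * K) z := by
        have h3 := Finset.single_le_sum (f := fun j => (tube n r j).indicator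
          (fun _ => (n : ℝ) * K) z) (fun j _ => indicator_nonneg (fun _ _ => by positivity) _)
          (Finset.mem_univ j)
        simp only [indicator_of_mem hmem] at h3
        exact h3
      linarith
    · push Not at hB
      obtain ⟨l, hlj, hl⟩ := hB
      have h1 : ∀ i, lam hr K i z = 1 := fun i => lam_eq_far hr (Ne.symm hlj) hj hl i
      have h2 : ∑ i, lam hr K i z = n := by simp [h1]
      linarith

/-- `∫ tr ω` is bounded -/
lemma trace_integral_le (hr1 : r ≤ 1 / 16) (hn : 2 ≤ n) (hK : 1 ≤ K) :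
    ∫ z in cell n, ∑ i, lam hr K i z ≤
      n + n * (n * K * (4 * r ^ 2) ^ (n - 1)) + n * K ^ (n - 1) * (4 * r ^ 2) ^ n := by
  have hK0 : 0 ≤ K := by linarith
  have hnn : (0 : ℝ) ≤ n := Nat.cast_nonneg n
  have hc : Continuous fun z : Cn n => ∑ i, lam hr K i z :=
    continuous_finsetSum _ fun i _ => (lam_contDiff hr hr1 hK i).continuous
  have hvol : volume.real (cell n) = 1 := by
    rw [Measure.real, volume_cell]
    simp
  have hfin : volume (cell n) ≠ ⊤ := by rw [volume_cell]; simp
  have hcell : IsFiniteMeasure (volume.restrict (cell n)) := ⟨by simpa using hfin.lt_top⟩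
  have hE : ∀ (E : Set (Cn n)) (c : ℝ), 0 ≤ c → MeasurableSet E → volume E ≠ ⊤ →
      IntegrableOn (E.indicator fun _ => c) (cell n) ∧
      ∫ z in cell n, E.indicator (fun _ => c) z ≤ c * volume.real E := by
    intro E c hc0 hEm hEv
    have h1 : IntegrableOn (E.indicator fun _ => c) (cell n) := by
      unfold IntegrableOn
      rw [integrable_indicator_iff hEm]
      exact integrableOn_const
    refine ⟨h1, ?_⟩
    have h2 : Integrable (E.indicator fun _ => c) := by
      rw [integrable_indicator_iff hEm]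
      exact integrableOn_const hEv
    calc ∫ z in cell n, E.indicator (fun _ => c) z ≤ ∫ z, E.indicator (fun _ => c) z :=
          setIntegral_le_integral h2 (Eventually.of_forall fun z =>
            indicator_nonneg (fun _ _ => hc0) _)
      _ = c * volume.real E := by
          rw [integral_indicator hEm, setIntegral_const, smul_eq_mul, mul_comm]
  have htube := fun j => hE (tube n r j) (n * K) (by positivity) (measurableSet_tube j)
    (by rw [volume_tube hr]; exact ENNReal.ofReal_ne_top)
  have hbox := hE (pboxO n r) (n * K ^ (n - 1)) (by positivity) measurableSet_pboxO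
    (by rw [volume_pboxO hr]; exact ENNReal.ofReal_ne_top)
  have hconst : IntegrableOn (fun _ : Cn n => (n : ℝ)) (cell n) := integrableOn_const hfin
  have hsumint : IntegrableOn (fun z => ∑ j, (tube n r j).indicator (fun _ => (n : ℝ) * K) z)
      (cell n) := integrable_finsetSum _ fun j _ => (htube j).1
  have hadd : IntegrableOn (fun z => (n : ℝ) + ∑ j, (tube n r j).indicator
      (fun _ => (n : ℝ) * K) z) (cell n) := hconst.add hsumint
  calc ∫ z in cell n, ∑ i, lam hr K i z
      ≤ ∫ z in cell n, ((n + (∑ j, (tube n r j).indicator (fun _ => (n : ℝ) * K) z)) +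
          (pboxO n r).indicator (fun _ => (n : ℝ) * K ^ (n - 1)) z) := by
        refine setIntegral_mono_on (integrableOn_cell_of_continuous hc)
          (hadd.add hbox.1) (measurableSet_cell n) fun z hz => ?_
        exact trace_pointwise hr hn hK hz
    _ = (n + ∑ j, ∫ z in cell n, (tube n r j).indicator (fun _ => (n : ℝ) * K) z) +
          ∫ z in cell n, (pboxO n r).indicator (fun _ => (n : ℝ) * K ^ (n - 1)) z := by
        rw [integral_add hadd hbox.1, integral_add hconst hsumint,
          integral_finsetSum _ fun j _ => (htube j).1, setIntegral_const, hvol]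
        simp
    _ ≤ (n + ∑ _j : Fin n, n * K * (4 * r ^ 2) ^ (n - 1)) +
          n * K ^ (n - 1) * (4 * r ^ 2) ^ n := by
        have h1 : ∀ j, ∫ z in cell n, (tube n r j).indicator (fun _ => (n : ℝ) * K) z ≤
            n * K * (4 * r ^ 2) ^ (n - 1) := by
          intro j
          refine (htube j).2.trans (le_of_eq ?_)
          rw [Measure.real, volume_tube hr, ENNReal.toReal_ofReal (by positivity)]
        have h2 : ∫ z in cell n, (pboxO n r).indicator (fun _ => (n : ℝ) * K ^ (n - 1)) z ≤
            n * K ^ (n - 1) * (4 * r ^ 2) ^ n := by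
          refine hbox.2.trans (le_of_eq ?_)
          rw [Measure.real, volume_pboxO hr, ENNReal.toReal_ofReal (by positivity)]
        have h3 := Finset.sum_le_sum fun j (_ : j ∈ (Finset.univ : Finset (Fin n))) => h1 j
        linarith
    _ = _ := by simp

lemma lam_inner (hr1 : r ≤ 1 / 16) (hn : 2 ≤ n) (hK : 1 ≤ K) {z : Cn n} (hz : z ∈ pboxI n r)
    (i : Fin n) : lam hr K i z = K := by
  have hK0 : 0 < K := by linarith
  have h1 : ∀ j, kap hr (z j) = 1 := fun j => kap_one hr hr1 (hz j (mem_univ j))
  have h2 : ∀ i, xx hr K i z = K ^ (n - 1) := by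
    intro i
    unfold xx
    simp_rw [h1]
    simp
  unfold lam PP
  simp_rw [h2]
  rw [Finset.prod_const, Finset.card_univ, Fintype.card_fin, ← pow_mul, mul_comm, pow_mul,
    root_pow hn (by positivity)]
  have : K ^ n = K ^ (n - 1) * K := by
    rw [← pow_succ]
    congr 1
    omega
  rw [this]
  field_simp

lemma pboxI_subset (hr1 : r ≤ 1 / 16) : pboxI n r ⊆ cell n := by
  rw [cell_eq_pi]
  exact Set.pi_mono fun _ _ => boxI_subset hr1

/-- the total volume is large -/
lemma det_integral_ge (hr1 : r ≤ 1 / 16) (hn : 2 ≤ n) (hK : 1 ≤ K) :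
    K ^ n * (r ^ 2) ^ n ≤ ∫ z in cell n, ((met (n := n) hr hr1 hK).h z).det.re := by
  have hK0 : 0 ≤ K := by linarith
  have e : ∀ z, ((met (n := n) hr hr1 hK).h z).det.re = ∏ i, lam hr K i z := by
    intro z
    change (Matrix.diagonal fun i => (lam hr K i z : ℂ)).det.re = _
    rw [Matrix.det_diagonal, ← Complex.ofReal_prod, Complex.ofReal_re]
  simp_rw [e]
  have hc : Continuous fun z : Cn n => ∏ i, lam hr K i z :=
    continuous_finsetProd _ fun i _ => (lam_contDiff hr hr1 hK i).continuous
  have hnn : ∀ z : Cn n, 0 ≤ ∏ i, lam hr K i z := fun z =>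
    Finset.prod_nonneg fun i _ => (lam_pos hr hK i z).le
  calc K ^ n * (r ^ 2) ^ n = ∫ z in pboxI n r, ∏ i, lam hr K i z := by
        rw [setIntegral_congr_fun (g := fun _ => K ^ n) measurableSet_pboxI]
        · rw [setIntegral_const, Measure.real, volume_pboxI hr,
            ENNReal.toReal_ofReal (by positivity), smul_eq_mul, mul_comm]
        · intro z hz
          simp only
          rw [Finset.prod_congr rfl fun i _ => lam_inner hr hr1 hn hK hz i]
          simp
    _ ≤ ∫ z in cell n, ∏ i, lam hr K i z :=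
        setIntegral_mono_set (integrableOn_cell_of_continuous hc)
          (Eventually.of_forall hnn) (Eventually.of_forall (pboxI_subset hr1))

end Pool.Agent.H32.Torus
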