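import Pool.Agent.H32.Torus.Defs

open MeasureTheory Filter Topology Complex Set
open scoped ContDiff ComplexOrder ComplexConjugate

namespace Pool.Agent.H32.Torus

variable {n : ℕ}

/-- `|z|²` -/
noncomputable def usq (z : Cn n) : ℝ := ∑ j, ‖z j‖ ^ 2

lemma usq_nonneg (z : Cn n) : 0 ≤ usq z := Finset.sum_nonneg fun j _ => by positivity

lemma norm_le_usq (z : Cn n) (j : Fin n) : ‖z j‖ ^ 2 ≤ usq z :=
  Finset.single_le_sum (f := fun j => ‖z j‖ ^ 2) (fun j _ => by positivity) (Finset.mem_univ j)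

lemma usq_pos {z : Cn n} (hz : z ≠ 0) : 0 < usq z := by
  obtain ⟨j, hj⟩ := Function.ne_iff.1 hz
  have : 0 < ‖z j‖ ^ 2 := by
    have : z j ≠ 0 := hj
    positivity
  exact this.trans_le (norm_le_usq z j)

lemma usq_zero : usq (0 : Cn n) = 0 := by simp [usq]

lemma usq_smul (t : ℝ) (z : Cn n) : usq (t • z) = t ^ 2 * usq z := by
  simp [usq, Finset.mul_sum, mul_pow]

lemma coord_contDiff (j : Fin n) : ContDiff ℝ ∞ fun w : Cn n => w j := contDiff_apply ℝ ℂ j

lemma conj_coord_contDiff (j : Fin n) : ContDiff ℝ ∞ fun w : Cn n => conj (w j) :=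
  (Complex.conjCLE.contDiff).comp (coord_contDiff j)

lemma usq_contDiff : ContDiff ℝ ∞ (usq : Cn n → ℝ) := by
  unfold usq
  exact ContDiff.sum fun j _ => (coord_contDiff j).norm_sq ℝ

lemma continuous_usq : Continuous (usq : Cn n → ℝ) := usq_contDiff.continuous

lemma coord_hasFDerivAt (j : Fin n) (z : Cn n) :
    HasFDerivAt (fun w : Cn n => w j) (ContinuousLinearMap.proj (R := ℝ) (φ := fun _ : Fin n => ℂ) j) z :=
  (ContinuousLinearMap.proj (R := ℝ) (φ := fun _ : Fin n => ℂ) j).hasFDerivAt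

lemma dz_mul {f g : Cn n → ℂ} {z : Cn n} (hf : DifferentiableAt ℝ f z)
    (hg : DifferentiableAt ℝ g z) (j : Fin n) :
    dz j (fun w => f w * g w) z = dz j f z * g z + f z * dz j g z := by
  unfold dz
  have := (hf.hasFDerivAt.mul hg.hasFDerivAt).fderiv
  have e : (fun w => f w * g w) = f * g := rfl
  rw [e, this]
  simp
  ring

lemma dzb_mul {f g : Cn n → ℂ} {z : Cn n} (hf : DifferentiableAt ℝ f z)
    (hg : DifferentiableAt ℝ g z) (j : Fin n) :
    dzb j (fun w => f w * g w) z = dzb j f z * g z + f z * dzb j g z := by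
  unfold dzb
  have := (hf.hasFDerivAt.mul hg.hasFDerivAt).fderiv
  have e : (fun w => f w * g w) = f * g := rfl
  rw [e, this]
  simp
  ring

lemma dz_add {f g : Cn n → ℂ} {z : Cn n} (hf : DifferentiableAt ℝ f z)
    (hg : DifferentiableAt ℝ g z) (j : Fin n) :
    dz j (fun w => f w + g w) z = dz j f z + dz j g z := by
  unfold dz
  have := (hf.hasFDerivAt.add hg.hasFDerivAt).fderiv
  have e : (fun w => f w + g w) = f + g := rfl
  rw [e, this]
  simp
  ring

lemma dzb_add {f g : Cn n → ℂ} {z : Cn n} (hf : DifferentiableAt ℝ f z)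
    (hg : DifferentiableAt ℝ g z) (j : Fin n) :
    dzb j (fun w => f w + g w) z = dzb j f z + dzb j g z := by
  unfold dzb
  have := (hf.hasFDerivAt.add hg.hasFDerivAt).fderiv
  have e : (fun w => f w + g w) = f + g := rfl
  rw [e, this]
  simp
  ring

lemma dz_congr {f g : Cn n → ℂ} {z : Cn n} (h : f =ᶠ[𝓝 z] g) (j : Fin n) : dz j f z = dz j g z := by
  unfold dz
  rw [h.fderiv_eq]

lemma dzb_congr {f g : Cn n → ℂ} {z : Cn n} (h : f =ᶠ[𝓝 z] g) (j : Fin n) :
    dzb j f z = dzb j g z := by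
  unfold dzb
  rw [h.fderiv_eq]

lemma dzb_congr' {f g : Cn n → ℂ} {z : Cn n} (h : f =ᶠ[𝓝 z] g) (j : Fin n) :
    dzb j f =ᶠ[𝓝 z] dzb j g := by
  filter_upwards [h.fderiv (𝕜 := ℝ)] with w hw
  unfold dzb
  rw [hw]

@[simp] lemma dz_const (j : Fin n) (c : ℂ) (z : Cn n) : dz j (fun _ => c) z = 0 := by
  simp [dz]

@[simp] lemma dzb_const (j : Fin n) (c : ℂ) (z : Cn n) : dzb j (fun _ => c) z = 0 := by
  simp [dzb]

lemma dz_coord (j k : Fin n) (z : Cn n) : dz j (fun w => w k) z = if j = k then 1 else 0 := by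
  unfold dz
  rw [(coord_hasFDerivAt k z).fderiv]
  simp only [ContinuousLinearMap.proj_apply]
  by_cases h : j = k
  · subst h
    simp
  · have h' : k ≠ j := Ne.symm h
    simp [h, h', Pi.single_apply]

lemma dzb_coord (j k : Fin n) (z : Cn n) : dzb j (fun w => w k) z = 0 := by
  unfold dzb
  rw [(coord_hasFDerivAt k z).fderiv]
  simp only [ContinuousLinearMap.proj_apply]
  by_cases h : j = k
  · subst h
    simp
  · have h' : k ≠ j := Ne.symm h
    simp [h', Pi.single_apply]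

lemma conj_hasFDerivAt (k : Fin n) (z : Cn n) :
    HasFDerivAt (fun w : Cn n => conj (w k))
      ((Complex.conjCLE : ℂ →L[ℝ] ℂ).comp
        (ContinuousLinearMap.proj (R := ℝ) (φ := fun _ : Fin n => ℂ) k)) z :=
  (Complex.conjCLE : ℂ →L[ℝ] ℂ).hasFDerivAt.comp z (coord_hasFDerivAt k z)

lemma dz_conj (j k : Fin n) (z : Cn n) : dz j (fun w => conj (w k)) z = 0 := by
  unfold dz
  rw [(conj_hasFDerivAt k z).fderiv]
  by_cases h : j = k
  · subst h
    simp
  · have h' : k ≠ j := Ne.symm h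
    simp [h', Pi.single_apply]

lemma dzb_conj (j k : Fin n) (z : Cn n) :
    dzb j (fun w => conj (w k)) z = if j = k then 1 else 0 := by
  unfold dzb
  rw [(conj_hasFDerivAt k z).fderiv]
  by_cases h : j = k
  · subst h
    simp
  · have h' : k ≠ j := Ne.symm h
    simp [h, h', Pi.single_apply]

/-- the derivative of `|z|²` -/
lemma usq_hasFDerivAt (z : Cn n) : ∃ L : Cn n →L[ℝ] ℝ, HasFDerivAt usq L z ∧
    ∀ v, L v = ∑ j, 2 * ((z j).re * (v j).re + (z j).im * (v j).im) := by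
  have h : ∀ j : Fin n, HasFDerivAt (fun w : Cn n => ‖w j‖ ^ 2)
      ((2 • innerSL ℝ (z j)).comp (ContinuousLinearMap.proj (R := ℝ) (φ := fun _ : Fin n => ℂ) j)) z := by
    intro j
    exact (coord_hasFDerivAt j z).norm_sq
  refine ⟨_, HasFDerivAt.fun_sum fun j _ => h j, ?_⟩
  intro v
  simp only [ContinuousLinearMap.sum_apply]
  refine Finset.sum_congr rfl fun j _ => ?_
  simp [Complex.inner]
  ring

lemma dz_radial {g : ℝ → ℝ} {g' : ℝ} {z : Cn n} (hg : HasDerivAt g g' (usq z)) (j : Fin n) :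
    dz j (fun w => ((g (usq w) : ℝ) : ℂ)) z = g' * conj (z j) := by
  obtain ⟨L, hL, hv⟩ := usq_hasFDerivAt z
  have h1 : HasFDerivAt (fun w => g (usq w)) (g' • L) z := hg.comp_hasFDerivAt z hL
  have h2 : HasFDerivAt (fun w => ((g (usq w) : ℝ) : ℂ)) (Complex.ofRealCLM.comp (g' • L)) z :=
    Complex.ofRealCLM.hasFDerivAt.comp z h1
  unfold dz
  rw [h2.fderiv]
  have e1 : L (Pi.single j 1) = 2 * (z j).re := by
    rw [hv, Finset.sum_eq_single j]
    · simp
    · intro k _ hk
      simp [Pi.single_apply, hk]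
    · simp
  have e2 : L (Pi.single j I) = 2 * (z j).im := by
    rw [hv, Finset.sum_eq_single j]
    · simp
    · intro k _ hk
      simp [Pi.single_apply, hk]
    · simp
  simp only [ContinuousLinearMap.comp_apply, ContinuousLinearMap.smul_apply, e1, e2,
    Complex.ofRealCLM_apply, smul_eq_mul]
  apply Complex.ext <;> simp <;> ring

lemma dzb_radial {g : ℝ → ℝ} {g' : ℝ} {z : Cn n} (hg : HasDerivAt g g' (usq z)) (j : Fin n) :
    dzb j (fun w => ((g (usq w) : ℝ) : ℂ)) z = g' * z j := by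
  obtain ⟨L, hL, hv⟩ := usq_hasFDerivAt z
  have h1 : HasFDerivAt (fun w => g (usq w)) (g' • L) z := hg.comp_hasFDerivAt z hL
  have h2 : HasFDerivAt (fun w => ((g (usq w) : ℝ) : ℂ)) (Complex.ofRealCLM.comp (g' • L)) z :=
    Complex.ofRealCLM.hasFDerivAt.comp z h1
  unfold dzb
  rw [h2.fderiv]
  have e1 : L (Pi.single j 1) = 2 * (z j).re := by
    rw [hv, Finset.sum_eq_single j]
    · simp
    · intro k _ hk
      simp [Pi.single_apply, hk]
    · simp
  have e2 : L (Pi.single j I) = 2 * (z j).im := by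
    rw [hv, Finset.sum_eq_single j]
    · simp
    · intro k _ hk
      simp [Pi.single_apply, hk]
    · simp
  simp only [ContinuousLinearMap.comp_apply, ContinuousLinearMap.smul_apply, e1, e2,
    Complex.ofRealCLM_apply, smul_eq_mul]
  apply Complex.ext <;> simp <;> ring

end Pool.Agent.H32.Torus
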