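import Mathlib

/-!
# `ω`-plurisubharmonic functions on the complex torus `X = ℂⁿ / ℤ[i]ⁿ`

Functions, Hermitian metrics and test forms on `X` are `ℤ[i]ⁿ`-periodic objects on the universal
cover `ℂⁿ = Fin n → ℂ`, and integrals over `X` are integrals over a fundamental cell.
Normalisation as in the problem: `dd^c = (i/π) ∂∂̄`.
-/

open MeasureTheory Filter Topology Complex Set
open scoped ContDiff ComplexOrder

namespace Pool.Agent.H32.Torus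

/-- `ℂⁿ`. -/
abbrev Cn (n : ℕ) : Type := Fin n → ℂ

/-- The lattice vector `a + i b ∈ ℤ[i]ⁿ`. -/
noncomputable def latt {n : ℕ} (a b : Fin n → ℤ) : Cn n := fun j => (a j : ℂ) + (b j : ℂ) * I

/-- `ℤ[i]ⁿ`-periodic functions on `ℂⁿ`, that is, functions on the torus `X = ℂⁿ / ℤ[i]ⁿ`. -/
def Per {n : ℕ} {β : Type*} (f : Cn n → β) : Prop :=
  ∀ (a b : Fin n → ℤ) (z : Cn n), f (z + latt a b) = f z

/-- A fundamental cell of the lattice `ℤ[i]ⁿ`, centred at the origin. -/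
def cell (n : ℕ) : Set (Cn n) :=
  {z | ∀ j, (z j).re ∈ Ico (-1 / 2 : ℝ) (1 / 2) ∧ (z j).im ∈ Ico (-1 / 2 : ℝ) (1 / 2)}

/-- `∂f/∂z_j = (∂f/∂x_j - i ∂f/∂y_j)/2`. -/
noncomputable def dz {n : ℕ} (j : Fin n) (f : Cn n → ℂ) (z : Cn n) : ℂ :=
  (fderiv ℝ f z (Pi.single j 1) - I * fderiv ℝ f z (Pi.single j I)) / 2

/-- `∂f/∂z̄_j = (∂f/∂x_j + i ∂f/∂y_j)/2`. -/
noncomputable def dzb {n : ℕ} (j : Fin n) (f : Cn n → ℂ) (z : Cn n) : ℂ :=
  (fderiv ℝ f z (Pi.single j 1) + I * fderiv ℝ f z (Pi.single j I)) / 2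

/-- A Hermitian metric on `X`, given by its positive `(1,1)`-form
`ω = (i/π) ∑ h_{jk} dz_j ∧ dz̄_k` with `h` smooth, periodic and positive definite. -/
structure HermitianMetric (n : ℕ) where
  /-- the coefficient matrix -/
  h : Cn n → Matrix (Fin n) (Fin n) ℂ
  smooth : ∀ j k, ContDiff ℝ ∞ fun z => h z j k
  periodic : Per h
  posDef : ∀ z, (h z).PosDef

/-- `∫_X ωⁿ = n! (2/π)ⁿ ∫ det h dλ`, because `(i/π) dz ∧ dz̄ = (2/π) dx ∧ dy`. -/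
noncomputable def HermitianMetric.volume {n : ℕ} (W : HermitianMetric n) : ℝ :=
  n.factorial * (2 / Real.pi) ^ n * ∫ z in cell n, (W.h z).det.re

/-- `ω` is balanced, `d(ω^{n-1}) = 0`. In terms of the coefficients,
`ω^{n-1} ∧ (i/π) ∑ g_{jk} dz_j ∧ dz̄_k = (n-1)! (2/π)ⁿ ∑ adj(h)_{kj} g_{jk} dλ`, and `∂̄(ω^{n-1}) = 0`
(which is the conjugate of `∂(ω^{n-1}) = 0`) says that `∑_k ∂(adj(h)_{kj})/∂z̄_k = 0` for all `j`. -/
def HermitianMetric.IsBalanced {n : ℕ} (W : HermitianMetric n) : Prop :=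
  ∀ (j : Fin n) (z : Cn n), ∑ k, dzb k (fun w => (W.h w).adjugate k j) z = 0

/-- `φ : X → [-∞, ∞)` is `ω`-plurisubharmonic: upper semicontinuous, locally integrable and
`ω + dd^c φ ≥ 0` in the sense of currents. A smooth `(n-1,n-1)`-form `Θ` on `X` corresponds to the
smooth periodic matrix function `A` for which
`(i/π) ∑ g_{jk} dz_j ∧ dz̄_k ∧ Θ = ∑ g_{jk} A_{jk} dλ`;
`Θ` is a positive form iff `A` is positive semidefinite everywhere, and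
`⟨ω + dd^c φ, Θ⟩ = ∫_X ω ∧ Θ + ∫_X φ dd^c Θ = ∫ (∑ h_{jk} A_{jk} + φ ∑ ∂²A_{jk}/∂z_j∂z̄_k) dλ`. -/
structure OmegaPSH {n : ℕ} (W : HermitianMetric n) (φ : Cn n → EReal) : Prop where
  periodic : Per φ
  lt_top : ∀ z, φ z < ⊤
  usc : UpperSemicontinuous φ
  ae_ne_bot : ∀ᵐ z, φ z ≠ ⊥
  locallyIntegrable : LocallyIntegrable (fun z => (φ z).toReal)
  pos : ∀ A : Cn n → Matrix (Fin n) (Fin n) ℂ, (∀ j k, ContDiff ℝ ∞ fun z => A z j k) → Per A →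
    (∀ z, (A z).PosSemidef) →
    0 ≤ ∫ z in cell n, ((∑ j, ∑ k, W.h z j k * A z j k).re +
      (φ z).toReal * (∑ j, ∑ k, dz j (dzb k fun w => A w j k) z).re)

/-- The Euclidean norm on `ℂⁿ`. -/
noncomputable def eucl {n : ℕ} (z : Cn n) : ℝ := Real.sqrt (∑ j, ‖z j‖ ^ 2)

/-- `φ(z) ≤ τ log ‖z - p‖ + O(1)` near `p`. -/
def HasLogPole {n : ℕ} (φ : Cn n → EReal) (p : Cn n) (τ : ℝ) : Prop :=
  ∃ C : ℝ, ∀ᶠ z in 𝓝[≠] p, φ z ≤ ((τ * Real.log (eucl (z - p)) + C : ℝ) : EReal)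

/-- The statement of Q1 for all Hermitian metrics `ω` on the torus `X = ℂⁿ / ℤ[i]ⁿ`: for all
finitely many (distinct) points `p_j` of `X` and weights `τ_j > 0` with `∑ τ_jⁿ < ∫_X ωⁿ` there is
an `ω`-psh function with logarithmic poles of weight `τ_j` at `p_j`. -/
def PrescribedPoles (n : ℕ) : Prop :=
  ∀ (W : HermitianMetric n) (k : ℕ) (p : Fin k → Cn n) (τ : Fin k → ℝ),
    (∀ i j, i ≠ j → ∀ a b, p i ≠ p j + latt a b) → (∀ j, 0 < τ j) →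
    ∑ j, τ j ^ n < W.volume →
    ∃ φ, OmegaPSH W φ ∧ ∀ j, HasLogPole φ (p j) (τ j)

end Pool.Agent.H32.Torus
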