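import Pool.Agent.H32.Torus.Periodize

open MeasureTheory Filter Topology Complex Set
open scoped ContDiff ComplexOrder ComplexConjugate

namespace Pool.Agent.H32.Torus

variable {n : ℕ}

/-! ### the cell -/

/-- the cell in `ℂ` -/
def cell1 : Set ℂ := Ico (-1 / 2 : ℝ) (1 / 2) ×ℂ Ico (-1 / 2 : ℝ) (1 / 2)

lemma cell_eq_pi (n : ℕ) : cell n = Set.pi univ fun _ => cell1 := by
  ext z
  simp [cell, cell1, Complex.mem_reProdIm]

lemma measurableSet_reProdIm {s t : Set ℝ} (hs : MeasurableSet s) (ht : MeasurableSet t) :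
    MeasurableSet (s ×ℂ t) :=
  (Complex.measurable_re hs).inter (Complex.measurable_im ht)

lemma volume_reProdIm {s t : Set ℝ} (hs : MeasurableSet s) (ht : MeasurableSet t) :
    volume (s ×ℂ t) = volume s * volume t := by
  have h := Complex.volume_preserving_equiv_real_prod.measure_preimage (s := s ×ˢ t)
    (hs.prod ht).nullMeasurableSet
  rw [Measure.volume_eq_prod, Measure.prod_prod] at h
  rw [← h]
  rfl

lemma measurableSet_cell (n : ℕ) : MeasurableSet (cell n) := by
  rw [cell_eq_pi]
  exact MeasurableSet.univ_pi fun _ => measurableSet_reProdIm measurableSet_Ico measurableSet_Ico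

lemma volume_cell (n : ℕ) : volume (cell n) = 1 := by
  rw [cell_eq_pi, volume_pi_pi]
  unfold cell1
  simp only [volume_reProdIm measurableSet_Ico measurableSet_Ico, Real.volume_Ico]
  norm_num

lemma cell_subset (n : ℕ) : cell n ⊆ Metric.closedBall (0 : Cn n) 1 := by
  intro z hz
  rw [mem_closedBall_zero_iff, pi_norm_le_iff_of_nonneg zero_le_one]
  intro j
  have h := hz j
  have h1 : |(z j).re| ≤ 1 / 2 := by rw [abs_le]; constructor <;> linarith [h.1.1, h.1.2]
  have h2 : |(z j).im| ≤ 1 / 2 := by rw [abs_le]; constructor <;> linarith [h.2.1, h.2.2]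
  have h3 := Complex.norm_le_abs_re_add_abs_im (z j)
  linarith

lemma mem_cell_of_usq {z : Cn n} (h : usq z < 1 / 16) : z ∈ cell n := by
  intro j
  have h1 : ‖z j‖ ^ 2 < 1 / 16 := (norm_le_usq z j).trans_lt h
  have h2 : ‖z j‖ < 1 / 4 := by nlinarith [norm_nonneg (z j)]
  have h3 := (Complex.abs_re_le_norm (z j)).trans_lt h2
  have h4 := (Complex.abs_im_le_norm (z j)).trans_lt h2
  rw [abs_lt] at h3 h4
  refine ⟨⟨?_, ?_⟩, ?_, ?_⟩ <;> linarith [h3.1, h3.2, h4.1, h4.2]

lemma integrableOn_cell_of_continuous {f : Cn n → ℝ} (hf : Continuous f) :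
    IntegrableOn f (cell n) :=
  (hf.locallyIntegrable.integrableOn_isCompact (isCompact_closedBall 0 1)).mono_set (cell_subset n)

lemma integrableOn_cell_mul {φ f : Cn n → ℝ} (hφ : LocallyIntegrable φ) (hf : Continuous f) :
    IntegrableOn (fun z => φ z * f z) (cell n) :=
  ((hφ.integrableOn_isCompact (isCompact_closedBall 0 1)).mul_continuousOn hf.continuousOn
    (isCompact_closedBall 0 1)).mono_set (cell_subset n)

/-! ### continuity of the kernels -/

lemma PL_continuous (hn : n ≠ 0) (L : ℝ) : Continuous fun z : Cn n => PL n L (usq z) := by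
  rw [continuous_iff_continuousAt]
  intro z
  rcases eq_or_ne z 0 with hz | hz
  · have : (fun w : Cn n => PL n L (usq w)) =ᶠ[𝓝 z] fun _ => 0 := by
      have h1 : ∀ᶠ w in 𝓝 z, usq w < Real.exp (-L) := by
        apply (continuous_usq.tendsto z).eventually_lt_const
        rw [hz, usq_zero]
        exact Real.exp_pos _
      filter_upwards [h1] with w hw
      unfold PL
      rcases (usq_nonneg w).eq_or_lt with h | h
      · rw [← h, zero_pow hn, div_zero]
      · have h2 := Real.log_lt_log h hw
        rw [Real.log_exp] at h2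
        rw [rho_zero (Or.inl (by linarith)), zero_div]
    exact continuousAt_const.congr this.symm
  · have hu : 0 < usq z := usq_pos hz
    unfold PL
    have h1 : ContinuousAt (fun w : Cn n => Real.log (usq w)) z :=
      continuous_usq.continuousAt.log hu.ne'
    exact (rho_contDiff.continuous.continuousAt.comp (h1.add continuousAt_const)).div
      (continuous_usq.continuousAt.pow n) (pow_ne_zero n hu.ne')

lemma RR_continuous : Continuous fun z : Cn n => RR n (usq z) := by
  rw [continuous_iff_continuousAt]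
  intro z
  rcases eq_or_ne z 0 with hz | hz
  · have : (fun w : Cn n => RR n (usq w)) =ᶠ[𝓝 z] fun _ => 0 := by
      have h1 : ∀ᶠ w in 𝓝 z, usq w < 1 / 64 := by
        apply (continuous_usq.tendsto z).eventually_lt_const
        rw [hz, usq_zero]
        norm_num
      filter_upwards [h1] with w hw
      unfold RR
      rw [dqq_zero (Or.inl hw), qq_zero (Or.inl hw.le)]
      simp
    exact continuousAt_const.congr this.symm
  · have hu : 0 < usq z := usq_pos hz
    unfold RR
    have h1 : ContinuousAt (fun w : Cn n => Real.log (usq w)) z :=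
      continuous_usq.continuousAt.log hu.ne'
    have h2 : ContinuousAt (fun w : Cn n => deriv qq (usq w)) z :=
      (dqq_contDiff.continuous.comp continuous_usq).continuousAt
    have h3 : ContinuousAt (fun w : Cn n => qq (usq w)) z :=
      (qq_contDiff.continuous.comp continuous_usq).continuousAt
    exact (((continuous_usq.continuousAt.mul h2).mul (continuousAt_const.sub h1)).sub
      (continuousAt_const.mul h3)).div
      (continuous_usq.continuousAt.pow n) (pow_ne_zero n hu.ne')

/-! ### total mass of the concentrated kernel -/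

/-- the mass of the concentrated kernel -/
noncomputable def c0 (n : ℕ) : ℝ := ∫ z : Cn n, PL n 0 (usq z)

lemma finrank_Cn (n : ℕ) : Module.finrank ℝ (Cn n) = n * 2 := by
  rw [Module.finrank_pi_fintype]
  simp

lemma PL_scale (hn : n ≠ 0) (L : ℝ) (z : Cn n) :
    PL n L (usq z) = Real.exp (n * L) * PL n 0 (usq (Real.exp (L / 2) • z)) := by
  rw [usq_smul]
  have e1 : Real.exp (L / 2) ^ 2 = Real.exp L := by
    rw [← Real.exp_nat_mul]
    congr 1
    push_cast
    ring
  rw [e1]
  rcases eq_or_ne z 0 with hz | hz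
  · rw [hz, usq_zero]
    simp [PL, hn]
  · have hu : 0 < usq z := usq_pos hz
    unfold PL
    rw [Real.log_mul (Real.exp_pos L).ne' hu.ne', Real.log_exp, mul_pow, ← Real.exp_nat_mul,
      add_zero, add_comm L]
    have : Real.exp (n * L) ≠ 0 := (Real.exp_pos _).ne'
    field_simp

lemma integral_PL (hn : n ≠ 0) (L : ℝ) : ∫ z : Cn n, PL n L (usq z) = c0 n := by
  simp_rw [PL_scale hn L]
  rw [integral_const_mul, Measure.integral_comp_smul volume (fun z : Cn n => PL n 0 (usq z)),
    finrank_Cn]
  have e1 : (Real.exp (L / 2)) ^ (n * 2) = Real.exp (n * L) := by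
    rw [← Real.exp_nat_mul]
    congr 1
    push_cast
    ring
  rw [e1, abs_of_pos (inv_pos.2 (Real.exp_pos _)), smul_eq_mul, ← mul_assoc,
    mul_inv_cancel₀ (Real.exp_pos _).ne', one_mul]
  rfl

lemma usq_tail_norm (z : Cn n) : ‖z‖ ^ 2 ≤ usq z := by
  have : ‖z‖ ≤ Real.sqrt (usq z) := by
    rw [pi_norm_le_iff_of_nonneg (Real.sqrt_nonneg _)]
    intro j
    exact Real.le_sqrt_of_sq_le (norm_le_usq z j)
  calc ‖z‖ ^ 2 ≤ Real.sqrt (usq z) ^ 2 := by gcongr
    _ = usq z := Real.sq_sqrt (usq_nonneg z)

lemma PL_hasCompactSupport (n : ℕ) (L : ℝ) :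
    HasCompactSupport fun z : Cn n => PL n L (usq z) := by
  apply HasCompactSupport.intro (isCompact_closedBall (0 : Cn n) (Real.exp ((1 - L) / 2)))
  intro z hz
  rw [mem_closedBall_zero_iff, not_le] at hz
  have h1 : Real.exp (1 - L) < usq z := by
    have h2 : Real.exp ((1 - L) / 2) ^ 2 < ‖z‖ ^ 2 := by
      have := Real.exp_pos ((1 - L) / 2)
      gcongr
    rw [← Real.exp_nat_mul] at h2
    have e : ((2 : ℕ) : ℝ) * ((1 - L) / 2) = 1 - L := by push_cast; ring
    rw [e] at h2
    exact h2.trans_le (usq_tail_norm z)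
  have h3 := Real.log_lt_log (Real.exp_pos _) h1
  rw [Real.log_exp] at h3
  unfold PL
  rw [rho_zero (Or.inr (by linarith)), zero_div]

lemma PL_nonneg (n : ℕ) (L : ℝ) {v : ℝ} (hv : 0 ≤ v) : 0 ≤ PL n L v := by
  unfold PL
  have := rho_nonneg (Real.log v + L)
  positivity

lemma rho_half_ne : rho (1 / 2) ≠ 0 := by
  have : (1 / 2 : ℝ) ∈ Function.support rho := by
    unfold rho
    rw [bump0.support_normed_eq]
    exact Metric.mem_ball_self bump0.rOut_pos
  exact this

lemma c0_pos (hn : n ≠ 0) : 0 < c0 n := by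
  have hpos : 0 < n := Nat.pos_of_ne_zero hn
  set z : Cn n := Pi.single ⟨0, hpos⟩ (Real.exp (1 / 4) : ℂ) with hz
  refine Continuous.integral_pos_of_hasCompactSupport_nonneg_nonzero (x := z) (PL_continuous hn 0)
    (PL_hasCompactSupport n 0) (fun w => PL_nonneg n 0 (usq_nonneg w)) ?_
  have hu : usq z = Real.exp (1 / 2) := by
    unfold usq
    rw [Finset.sum_eq_single ⟨0, hpos⟩]
    · rw [hz, Pi.single_eq_same, Complex.norm_real, Real.norm_of_nonneg (Real.exp_pos _).le,
        ← Real.exp_nat_mul]
      congr 1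
      push_cast
      ring
    · intro j _ hj
      rw [hz, Pi.single_eq_of_ne hj]
      simp
    · simp
  rw [hu]
  unfold PL
  rw [Real.log_exp, add_zero]
  exact div_ne_zero rho_half_ne (pow_ne_zero _ (Real.exp_pos _).ne')

lemma setIntegral_PL (hn : n ≠ 0) {L : ℝ} (hL : L0 ≤ L) :
    ∫ z in cell n, PL n L (usq z) = c0 n := by
  rw [← integral_PL hn L]
  apply setIntegral_eq_integral_of_forall_compl_eq_zero
  intro z hz
  have h1 : 1 / 16 ≤ usq z := by
    by_contra h
    exact hz (mem_cell_of_usq (not_le.1 h))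
  have h2 : -Real.log 64 ≤ Real.log (usq z) := by
    have := Real.log_le_log (by norm_num) h1
    have h3 : Real.log (1 / 64) ≤ Real.log (1 / 16) := Real.log_le_log (by norm_num) (by norm_num)
    rw [one_div, Real.log_inv] at h3
    linarith
  unfold PL
  unfold L0 at hL
  rw [rho_zero (Or.inr (by linarith)), zero_div]

/-! ### integrability of `|z|^{-(2n-2)}` -/

/-- the weight `|z|^{-(2n-2)}` near the origin -/
noncomputable def Jf (n : ℕ) (z : Cn n) : ℝ := if usq z < 1 / 16 then 1 / usq z ^ (n - 1) else 0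

lemma Jf_nonneg (z : Cn n) : 0 ≤ Jf n z := by
  unfold Jf
  have := usq_nonneg z
  split_ifs <;> positivity

lemma Jf_integrable (hn : 2 ≤ n) : Integrable (Jf n) := by
  haveI : Nontrivial (Cn n) := by
    haveI : Nonempty (Fin n) := ⟨⟨0, by omega⟩⟩
    infer_instance
  set G : ℝ → ℝ := fun y => if y < 1 then 1 / y ^ (2 * (n - 1)) else 0 with hG
  have h1 : Integrable (fun z : Cn n => G ‖z‖) := by
    rw [integrable_fun_norm_addHaar, finrank_Cn]
    have h2 : IntegrableOn (fun y : ℝ => if y < 1 then y else 0) (Ioi 0) := by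
      have h3 : IntegrableOn (fun y : ℝ => y) (Ioo 0 1) :=
        (continuous_id.integrableOn_Icc (a := (0 : ℝ)) (b := 1)).mono_set Ioo_subset_Icc_self
      have h4 : Integrable ((Ioo (0 : ℝ) 1).indicator fun y : ℝ => y) :=
        (integrable_indicator_iff measurableSet_Ioo).2 h3
      refine (h4.integrableOn (s := Ioi 0)).congr_fun ?_ measurableSet_Ioi
      intro y hy
      by_cases h5 : y < 1
      · simp [indicator, h5, mem_Ioi.1 hy]
      · simp [indicator, h5]
    refine h2.congr_fun ?_ measurableSet_Ioi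
    intro y hy
    have hy' : (0 : ℝ) < y := hy
    simp only [hG, smul_eq_mul]
    by_cases h5 : y < 1
    · simp only [h5, if_true]
      have e : n * 2 - 1 = 2 * (n - 1) + 1 := by omega
      rw [e, pow_succ]
      field_simp
    · simp [h5]
  refine h1.mono' ?_ ?_
  · refine Measurable.aestronglyMeasurable ?_
    unfold Jf
    refine Measurable.ite ?_ ?_ measurable_const
    · exact measurableSet_lt continuous_usq.measurable measurable_const
    · exact ((continuous_usq.pow (n - 1)).measurable).const_div 1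
  · refine Eventually.of_forall fun z => ?_
    rw [Real.norm_of_nonneg (Jf_nonneg z)]
    unfold Jf
    simp only [hG]
    split_ifs with h2 h3 h3
    · rcases eq_or_ne z 0 with hz | hz
      · rw [hz, usq_zero, norm_zero, zero_pow (by omega), zero_pow (by omega)]
      · have h4 : 0 < ‖z‖ := norm_pos_iff.2 hz
        rw [pow_mul]
        have h5 := usq_tail_norm z
        gcongr
    · exfalso
      have h5 := usq_tail_norm z
      have : (1 : ℝ) ≤ ‖z‖ ^ 2 := by nlinarith
      linarith
    · positivity
    · exact le_rfl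

end Pool.Agent.H32.Torus
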