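import Pool.Agent.H32.Torus.Integrals

open MeasureTheory Filter Topology Complex Set
open scoped ContDiff ComplexOrder ComplexConjugate

namespace Pool.Agent.H32.Torus

variable {n : ℕ}

/-- trace pairing for diagonal metrics -/
lemma trace_eq {W : HermitianMetric n} {lam : Fin n → Cn n → ℝ}
    (hdiag : ∀ z, W.h z = Matrix.diagonal fun i => (lam i z : ℂ)) (L : ℝ) (z : Cn n) :
    (∑ j, ∑ k, W.h z j k * tst n L z j k).re =
      afun n L (usq z) * ∑ j, lam j z * ‖z j‖ ^ 2 + L * bfun n (usq z) * ∑ j, lam j z := by
  have h1 : ∀ j, ∑ k, W.h z j k * tst n L z j k =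
      ((afun n L (usq z) * (lam j z * ‖z j‖ ^ 2) + L * bfun n (usq z) * lam j z : ℝ) : ℂ) := by
    intro j
    rw [hdiag, Finset.sum_eq_single j]
    · unfold tst
      rw [Matrix.diagonal_apply_eq, radMat_apply, Complex.mul_conj, Complex.normSq_eq_norm_sq]
      simp only [if_true]
      push_cast
      ring
    · intro k _ hk
      rw [Matrix.diagonal_apply_ne _ (Ne.symm hk), zero_mul]
    · simp
  simp_rw [h1]
  rw [← Complex.ofReal_sum, Complex.ofReal_re, Finset.sum_add_distrib, ← Finset.mul_sum,
    ← Finset.mul_sum]

lemma trace_le {W : HermitianMetric n} {lam : Fin n → Cn n → ℝ}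
    (hdiag : ∀ z, W.h z = Matrix.diagonal fun i => (lam i z : ℂ))
    (hpos : ∀ i z, 0 < lam i z) (hnear : ∀ z, usq z < 1 / 16 → ∀ i, lam i z = 1)
    (hn : 2 ≤ n) {L : ℝ} (hL : 0 ≤ L) (z : Cn n) :
    (∑ j, ∑ k, W.h z j k * tst n L z j k).re ≤ L * Jf n z + L * bmax n * ∑ j, lam j z := by
  rw [trace_eq hdiag]
  have hS : 0 ≤ ∑ j, lam j z := Finset.sum_nonneg fun j _ => (hpos j z).le
  have h2 : L * bfun n (usq z) * ∑ j, lam j z ≤ L * bmax n * ∑ j, lam j z := by
    have := bfun_le n (usq z)
    gcongr
  have h1 : afun n L (usq z) * ∑ j, lam j z * ‖z j‖ ^ 2 ≤ L * Jf n z := by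
    rcases lt_or_ge (usq z) (1 / 16) with h | h
    · have e : ∑ j, lam j z * ‖z j‖ ^ 2 = usq z := by
        unfold usq
        refine Finset.sum_congr rfl fun j _ => ?_
        rw [hnear z h, one_mul]
      rw [e]
      unfold Jf
      rw [if_pos h]
      rcases eq_or_ne z 0 with hz | hz
      · rw [hz, usq_zero, mul_zero, zero_pow (by omega)]
        simp
      · have hu : 0 < usq z := usq_pos hz
        have h3 : cut (usq z) * sp (Real.log (usq z) + L) ≤ L := by
          have hlog : Real.log (usq z) ≤ 0 := Real.log_nonpos hu.le (by linarith)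
          have h4 : sp (Real.log (usq z) + L) ≤ L := by
            rcases le_total (Real.log (usq z) + L) 0 with h5 | h5
            · rw [sp_of_nonpos h5]; exact hL
            · exact (sp_le h5).trans (by linarith)
          calc cut (usq z) * sp (Real.log (usq z) + L) ≤ 1 * sp (Real.log (usq z) + L) := by
                have := sp_nonneg (Real.log (usq z) + L)
                have := cut_le_one (usq z)
                gcongr
            _ ≤ L := by rw [one_mul]; exact h4
        have e2 : usq z ^ n = usq z ^ (n - 1) * usq z := by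
          rw [← pow_succ]
          congr 1
          omega
        unfold afun
        rw [e2]
        have : cut (usq z) * sp (Real.log (usq z) + L) / (usq z ^ (n - 1) * usq z) * usq z =
            (cut (usq z) * sp (Real.log (usq z) + L)) * (1 / usq z ^ (n - 1)) := by
          field_simp
        rw [this]
        have h6 : 0 ≤ 1 / usq z ^ (n - 1) := by positivity
        exact mul_le_mul_of_nonneg_right h3 h6
    · unfold afun
      rw [cut_of_ge h]
      have := mul_nonneg hL (Jf_nonneg z)
      simpa using this
  linarith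

lemma small_of_usq {δ : ℝ} (hδ : 0 < δ) {P : Cn n → Prop} (h : ∀ᶠ z in 𝓝[≠] (0 : Cn n), P z) :
    ∃ ε : ℝ, 0 < ε ∧ ε ≤ δ ∧ ∀ z : Cn n, z ≠ 0 → usq z < ε → P z := by
  rw [eventually_nhdsWithin_iff, Metric.eventually_nhds_iff] at h
  obtain ⟨r, hr, h⟩ := h
  refine ⟨min (r ^ 2) δ, lt_min (by positivity) hδ, min_le_right _ _, fun z hz hu => ?_⟩
  apply h _ hz
  rw [dist_zero_right]
  have h1 := usq_tail_norm z
  have h2 : ‖z‖ ^ 2 < r ^ 2 := h1.trans_lt (hu.trans_le (min_le_left _ _))
  exact lt_of_pow_lt_pow_left₀ 2 hr.le h2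

/-- The weight of a logarithmic pole at the origin is controlled by the mass of `ω`. -/
theorem pole_bound {W : HermitianMetric n} {lam : Fin n → Cn n → ℝ}
    (hdiag : ∀ z, W.h z = Matrix.diagonal fun i => (lam i z : ℂ))
    (hpos : ∀ i z, 0 < lam i z) (hcont : ∀ i, Continuous (lam i))
    (hnear : ∀ z, usq z < 1 / 16 → ∀ i, lam i z = 1)
    (hn : 2 ≤ n) {φ : Cn n → EReal} (hφ : OmegaPSH W φ) {τ : ℝ} (hτ : 0 < τ)
    (hpole : HasLogPole φ 0 τ) :
    τ * (c0 n / 2) ≤ (∫ z in cell n, Jf n z) + bmax n * ∫ z in cell n, ∑ j, lam j z := by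
  have hn0 : n ≠ 0 := by omega
  obtain ⟨C, hC⟩ := hpole
  obtain ⟨ε, hε, hε1, hεC⟩ := small_of_usq (δ := 1) one_pos hC
  set J := ∫ z in cell n, Jf n z with hJ
  set T := ∫ z in cell n, ∑ j, lam j z with hT
  set K := ∫ z in cell n, (φ z).toReal * RR n (usq z) with hK
  have hRRint : IntegrableOn (fun z => (φ z).toReal * RR n (usq z)) (cell n) :=
    integrableOn_cell_mul hφ.locallyIntegrable RR_continuous
  have hLcont : Continuous fun z => ∑ j, lam j z := continuous_finsetSum _ fun j _ => hcont j
  -- the inequality for each large `L`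
  have key : ∀ L, L0 ≤ L → 1 - Real.log ε ≤ L →
      0 ≤ L * J + L * bmax n * T + ((τ * ((1 - L) / 2) + C) * c0 n + K) := by
    intro L hL hLε
    have hL0 : 0 ≤ L := by
      have : 0 ≤ Real.log 64 := Real.log_nonneg (by norm_num)
      unfold L0 at hL
      linarith
    have h1 := hφ.pos (ptst n L) (ptst_contDiff hn0 L) (ptst_per L) (ptst_posSemidef hL0)
    have h2 : ∫ z in cell n, ((∑ j, ∑ k, W.h z j k * ptst n L z j k).re +
        (φ z).toReal * (∑ j, ∑ k, dz j (dzb k fun w => ptst n L w j k) z).re) =
        ∫ z in cell n, ((∑ j, ∑ k, W.h z j k * tst n L z j k).re +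
          ((φ z).toReal * PL n L (usq z) + (φ z).toReal * RR n (usq z))) := by
      refine setIntegral_congr_fun (measurableSet_cell n) fun z hz => ?_
      rw [ptst_eq hz, divdiv_ptst hn0 hL hz, Complex.ofReal_re]
      ring
    rw [h2] at h1
    have hPLint : IntegrableOn (fun z => (φ z).toReal * PL n L (usq z)) (cell n) :=
      integrableOn_cell_mul hφ.locallyIntegrable (PL_continuous hn0 L)
    have htrcont : Continuous fun z : Cn n => (∑ j, ∑ k, W.h z j k * tst n L z j k).re := by
      refine Complex.continuous_re.comp (continuous_finsetSum _ fun j _ =>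
        continuous_finsetSum _ fun k _ => ?_)
      exact (W.smooth j k).continuous.mul (tst_contDiff hn0 L j k).continuous
    have htrint := integrableOn_cell_of_continuous htrcont
    have hsplit1 : ∫ z in cell n, ((∑ j, ∑ k, W.h z j k * tst n L z j k).re +
          ((φ z).toReal * PL n L (usq z) + (φ z).toReal * RR n (usq z))) =
        (∫ z in cell n, (∑ j, ∑ k, W.h z j k * tst n L z j k).re) +
          ∫ z in cell n, ((φ z).toReal * PL n L (usq z) + (φ z).toReal * RR n (usq z)) :=
      integral_add htrint (hPLint.add hRRint)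
    have hsplit2 : ∫ z in cell n, ((φ z).toReal * PL n L (usq z) + (φ z).toReal * RR n (usq z)) =
        (∫ z in cell n, (φ z).toReal * PL n L (usq z)) +
          ∫ z in cell n, (φ z).toReal * RR n (usq z) :=
      integral_add hPLint hRRint
    rw [hsplit1, hsplit2] at h1
    -- the trace term
    have htr : ∫ z in cell n, (∑ j, ∑ k, W.h z j k * tst n L z j k).re ≤
        L * J + L * bmax n * T := by
      have hJint : IntegrableOn (fun z => L * Jf n z) (cell n) :=
        ((Jf_integrable hn).integrableOn).const_mul L
      have hTint : IntegrableOn (fun z => L * bmax n * ∑ j, lam j z) (cell n) :=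
        (integrableOn_cell_of_continuous hLcont).const_mul _
      calc ∫ z in cell n, (∑ j, ∑ k, W.h z j k * tst n L z j k).re
          ≤ ∫ z in cell n, (L * Jf n z + L * bmax n * ∑ j, lam j z) := by
            refine integral_mono htrint (hJint.add hTint) fun z => ?_
            exact trace_le hdiag hpos hnear hn hL0 z
        _ = L * J + L * bmax n * T := by
            rw [integral_add hJint hTint, integral_const_mul, integral_const_mul]
    -- the concentrated term
    have hPL : ∫ z in cell n, (φ z).toReal * PL n L (usq z) ≤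
        (τ * ((1 - L) / 2) + C) * c0 n := by
      have hPint : IntegrableOn (fun z : Cn n => (τ * ((1 - L) / 2) + C) * PL n L (usq z))
          (cell n) := integrableOn_cell_of_continuous (continuous_const.mul (PL_continuous hn0 L))
      have hle : ∀ᵐ z ∂(volume.restrict (cell n)), (φ z).toReal * PL n L (usq z) ≤
          (τ * ((1 - L) / 2) + C) * PL n L (usq z) := by
        have hae : ∀ᵐ z ∂(volume.restrict (cell n)), φ z ≠ ⊥ := ae_restrict_of_ae hφ.ae_ne_bot
        filter_upwards [hae] with z hz
        rcases eq_or_ne (PL n L (usq z)) 0 with h0 | h0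
        · rw [h0, mul_zero, mul_zero]
        · have hz0 : z ≠ 0 := by
            intro h
            apply h0
            rw [h, usq_zero]
            unfold PL
            rw [zero_pow hn0, div_zero]
          have hu : 0 < usq z := usq_pos hz0
          have hlog : Real.log (usq z) + L < 1 := by
            by_contra hge
            apply h0
            unfold PL
            rw [rho_zero (Or.inr (not_lt.1 hge)), zero_div]
          have hsm : usq z < ε := by
            rw [← Real.log_lt_log_iff hu hε]
            linarith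
          have h3 := hεC z hz0 hsm
          have h4 : Real.log (eucl (z - 0)) = Real.log (usq z) / 2 := by
            rw [sub_zero]
            change Real.log (Real.sqrt (usq z)) = _
            rw [Real.log_sqrt (usq_nonneg z)]
          rw [h4] at h3
          have h5 : (φ z).toReal ≤ τ * (Real.log (usq z) / 2) + C := by
            have := EReal.toReal_le_toReal h3 hz (EReal.coe_ne_top _)
            rwa [EReal.toReal_coe] at this
          have h6 : (φ z).toReal ≤ τ * ((1 - L) / 2) + C := by
            refine h5.trans ?_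
            have : Real.log (usq z) / 2 ≤ (1 - L) / 2 := by linarith
            have := mul_le_mul_of_nonneg_left this hτ.le
            linarith
          exact mul_le_mul_of_nonneg_right h6 (PL_nonneg n L hu.le)
      calc ∫ z in cell n, (φ z).toReal * PL n L (usq z)
          ≤ ∫ z in cell n, (τ * ((1 - L) / 2) + C) * PL n L (usq z) :=
            integral_mono_ae hPLint hPint hle
        _ = (τ * ((1 - L) / 2) + C) * c0 n := by
            rw [integral_const_mul, setIntegral_PL hn0 hL]
    linarith
  -- let `L → ∞`
  by_contra hcon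
  rw [not_le] at hcon
  set d := τ * (c0 n / 2) - (J + bmax n * T) with hd
  have hdpos : 0 < d := by linarith
  obtain ⟨L, hL1, hL2, hL3⟩ : ∃ L, L0 ≤ L ∧ 1 - Real.log ε ≤ L ∧
      (τ / 2 + C) * c0 n + K < d * L := by
    refine ⟨max L0 (max (1 - Real.log ε) (((τ / 2 + C) * c0 n + K) / d + 1)), le_max_left _ _,
      (le_max_left _ _).trans (le_max_right _ _), ?_⟩
    have h1 : ((τ / 2 + C) * c0 n + K) / d + 1 ≤
        max L0 (max (1 - Real.log ε) (((τ / 2 + C) * c0 n + K) / d + 1)) :=
      (le_max_right _ _).trans (le_max_right _ _)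
    have h2 := mul_le_mul_of_nonneg_left h1 hdpos.le
    have h3 : d * (((τ / 2 + C) * c0 n + K) / d + 1) = (τ / 2 + C) * c0 n + K + d := by
      field_simp
    linarith
  have h1 := key L hL1 hL2
  have h2 : L * J + L * bmax n * T + ((τ * ((1 - L) / 2) + C) * c0 n + K) =
      (τ / 2 + C) * c0 n + K - d * L := by
    rw [hd]
    ring
  linarith

end Pool.Agent.H32.Torus
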