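import Pool.Agent.H32.Torus.Key

open MeasureTheory Filter Topology Complex Set
open scoped ContDiff ComplexOrder ComplexConjugate

namespace Pool.Agent.H32.Torus

/-- a bump around `3/8` with radii `r/2` and `r` -/
noncomputable def bb {r : ℝ} (hr : 0 < r) : ContDiffBump (3 / 8 : ℝ) :=
  ⟨r / 2, r, by positivity, by linarith⟩

/-- product bump on `ℂ`, as a function on `ℂ¹` -/
noncomputable def prodBump {r : ℝ} (hr : 0 < r) (w : Cn 1) : ℝ :=
  bb hr (w 0).re * bb hr (w 0).im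

/-- the periodic bump function on `ℂ` -/
noncomputable def kap {r : ℝ} (hr : 0 < r) (ζ : ℂ) : ℝ := prodBump hr (frc fun _ => ζ)

section kap
variable {r : ℝ} (hr : 0 < r)

lemma bb_zero {x : ℝ} (h : r ≤ |x - 3 / 8|) : bb hr x = 0 := by
  apply (bb hr).zero_of_le_dist
  rw [Real.dist_eq]
  exact h

lemma bb_one {x : ℝ} (h : |x - 3 / 8| ≤ r / 2) : bb hr x = 1 := by
  apply (bb hr).one_of_mem_closedBall
  rw [Metric.mem_closedBall, Real.dist_eq]
  exact h

lemma prodBump_zero (hr1 : r ≤ 1 / 16) (w : Cn 1)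
    (h : ∃ j, (7 / 16 : ℝ) < |(w j).re| ∨ (7 / 16 : ℝ) < |(w j).im|) : prodBump hr w = 0 := by
  obtain ⟨j, hj⟩ := h
  have hj0 : j = 0 := Subsingleton.elim _ _
  subst hj0
  have key : ∀ x : ℝ, (7 / 16 : ℝ) < |x| → r ≤ |x - 3 / 8| := by
    intro x hx
    have h1 : |x| ≤ |x - 3 / 8| + 3 / 8 := by
      calc |x| = |(x - 3 / 8) + 3 / 8| := by ring_nf
        _ ≤ |x - 3 / 8| + |(3 / 8 : ℝ)| := abs_add_le _ _
        _ = _ := by norm_num
    linarith
  unfold prodBump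
  rcases hj with h | h
  · rw [bb_zero hr (key _ h), zero_mul]
  · rw [bb_zero hr (key _ h), mul_zero]

lemma prodBump_contDiff : ContDiff ℝ ∞ (prodBump hr) := by
  unfold prodBump
  have h1 : ContDiff ℝ ∞ fun w : Cn 1 => (w 0).re :=
    Complex.reCLM.contDiff.comp (coord_contDiff 0)
  have h2 : ContDiff ℝ ∞ fun w : Cn 1 => (w 0).im :=
    Complex.imCLM.contDiff.comp (coord_contDiff 0)
  exact ((bb hr).contDiff.comp h1).mul ((bb hr).contDiff.comp h2)

lemma kap_contDiff (hr1 : r ≤ 1 / 16) : ContDiff ℝ ∞ (kap hr) := by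
  have h1 := periodize_contDiff (f := prodBump hr) (c := 0) (q := 7 / 16) (by norm_num)
    (prodBump_contDiff hr) (prodBump_zero hr hr1)
  have h2 : ContDiff ℝ ∞ fun ζ : ℂ => (fun _ : Fin 1 => ζ) := contDiff_pi.2 fun _ => contDiff_id
  exact h1.comp h2

lemma kap_per (ζ : ℂ) (a b : ℤ) : kap hr (ζ + ((a : ℂ) + b * I)) = kap hr ζ := by
  unfold kap
  have h : (fun _ : Fin 1 => ζ + ((a : ℂ) + b * I)) =
      (fun _ : Fin 1 => ζ) + latt (fun _ => a) fun _ => b := by
    funext j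
    simp [latt]
  rw [h, frc_per]

lemma kap_eq {ζ : ℂ} (h : ζ ∈ cell1) : kap hr ζ = bb hr ζ.re * bb hr ζ.im := by
  unfold kap
  rw [frc_eq]
  · rfl
  · intro j
    exact h

lemma kap_nonneg (ζ : ℂ) : 0 ≤ kap hr ζ := mul_nonneg (bb hr).nonneg (bb hr).nonneg

lemma kap_le_one (ζ : ℂ) : kap hr ζ ≤ 1 :=
  mul_le_one₀ (bb hr).le_one (bb hr).nonneg (bb hr).le_one

/-- outer box -/
def boxO (r : ℝ) : Set ℂ := Ioo (3 / 8 - r) (3 / 8 + r) ×ℂ Ioo (3 / 8 - r) (3 / 8 + r)

/-- inner box -/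
def boxI (r : ℝ) : Set ℂ := Icc (3 / 8 - r / 2) (3 / 8 + r / 2) ×ℂ Icc (3 / 8 - r / 2) (3 / 8 + r / 2)

lemma mem_boxO {ζ : ℂ} (h : ζ ∈ cell1) (h0 : kap hr ζ ≠ 0) : ζ ∈ boxO r := by
  rw [kap_eq hr h] at h0
  have h1 : ∀ x : ℝ, bb hr x ≠ 0 → x ∈ Ioo (3 / 8 - r) (3 / 8 + r) := by
    intro x hx
    by_contra hcon
    apply hx
    apply bb_zero
    by_contra h2
    rw [not_le, abs_lt] at h2
    exact hcon ⟨by linarith [h2.1], by linarith [h2.2]⟩
  exact ⟨h1 _ (left_ne_zero_of_mul h0), h1 _ (right_ne_zero_of_mul h0)⟩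

lemma boxI_subset (hr1 : r ≤ 1 / 16) : boxI r ⊆ cell1 := by
  intro ζ hζ
  obtain ⟨h1, h2⟩ := hζ
  rw [mem_preimage, mem_Icc] at h1 h2
  refine ⟨?_, ?_⟩ <;> rw [mem_preimage, mem_Ico] <;> constructor <;> linarith [h1.1, h1.2, h2.1, h2.2]

lemma kap_one (hr1 : r ≤ 1 / 16) {ζ : ℂ} (h : ζ ∈ boxI r) : kap hr ζ = 1 := by
  rw [kap_eq hr (boxI_subset hr1 h)]
  obtain ⟨h1, h2⟩ := h
  rw [mem_preimage, mem_Icc] at h1 h2
  rw [bb_one hr, bb_one hr, one_mul]
  · rw [abs_le]; constructor <;> linarith [h2.1, h2.2]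
  · rw [abs_le]; constructor <;> linarith [h1.1, h1.2]

lemma kap_near (hr1 : r ≤ 1 / 16) {ζ : ℂ} (h : ‖ζ‖ < 1 / 4) : kap hr ζ = 0 := by
  have h3 := (Complex.abs_re_le_norm ζ).trans_lt h
  have h4 := (Complex.abs_im_le_norm ζ).trans_lt h
  rw [abs_lt] at h3 h4
  rw [kap_eq]
  · rw [bb_zero hr, zero_mul]
    rw [le_abs]
    right
    linarith [h3.2]
  · refine ⟨?_, ?_⟩ <;> rw [mem_preimage, mem_Ico] <;> constructor <;>
      linarith [h3.1, h3.2, h4.1, h4.2]

end kap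

/-! ### the balanced metric -/

section metric

variable {n : ℕ} {r : ℝ} (hr : 0 < r) (K : ℝ)

/-- the coefficients `x_i` of `ω^{n-1}` -/
noncomputable def xx (i : Fin n) (z : Cn n) : ℝ :=
  1 + (K ^ (n - 1) - 1) * ∏ j ∈ Finset.univ.erase i, kap hr (z j)

/-- the product of all `x_i` -/
noncomputable def PP (z : Cn n) : ℝ := ∏ i, xx hr K i z

/-- the coefficients `λ_i` of `ω` -/
noncomputable def lam (i : Fin n) (z : Cn n) : ℝ :=
  PP hr K z ^ (1 / ((n : ℝ) - 1)) / xx hr K i z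

variable {K}

lemma prod_kap_nonneg (s : Finset (Fin n)) (z : Cn n) : 0 ≤ ∏ j ∈ s, kap hr (z j) :=
  Finset.prod_nonneg fun j _ => kap_nonneg hr _

lemma prod_kap_le_one (s : Finset (Fin n)) (z : Cn n) : ∏ j ∈ s, kap hr (z j) ≤ 1 :=
  Finset.prod_le_one (fun j _ => kap_nonneg hr _) fun j _ => kap_le_one hr _

lemma one_le_xx (hK : 1 ≤ K) (i : Fin n) (z : Cn n) : 1 ≤ xx hr K i z := by
  unfold xx
  have h1 : 1 ≤ K ^ (n - 1) := one_le_pow₀ hK
  have h2 := prod_kap_nonneg hr (Finset.univ.erase i) z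
  nlinarith

lemma xx_le (hK : 1 ≤ K) (i : Fin n) (z : Cn n) : xx hr K i z ≤ K ^ (n - 1) := by
  unfold xx
  have h1 : 1 ≤ K ^ (n - 1) := one_le_pow₀ hK
  have h2 := prod_kap_le_one hr (Finset.univ.erase i) z
  nlinarith

lemma xx_pos (hK : 1 ≤ K) (i : Fin n) (z : Cn n) : 0 < xx hr K i z :=
  one_pos.trans_le (one_le_xx hr hK i z)

lemma PP_pos (hK : 1 ≤ K) (z : Cn n) : 0 < PP hr K z :=
  Finset.prod_pos fun i _ => xx_pos hr hK i z

lemma lam_pos (hK : 1 ≤ K) (i : Fin n) (z : Cn n) : 0 < lam hr K i z :=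
  div_pos (Real.rpow_pos_of_pos (PP_pos hr hK z) _) (xx_pos hr hK i z)

lemma xx_contDiff (hr1 : r ≤ 1 / 16) (K : ℝ) (i : Fin n) : ContDiff ℝ ∞ (xx hr K i) := by
  unfold xx
  refine contDiff_const.add (contDiff_const.mul ?_)
  exact contDiff_prod fun j _ => (kap_contDiff hr hr1).comp (coord_contDiff j)

lemma PP_contDiff (hr1 : r ≤ 1 / 16) (K : ℝ) : ContDiff ℝ ∞ (PP (n := n) hr K) := by
  unfold PP
  exact contDiff_prod fun i _ => xx_contDiff hr hr1 K i

lemma lam_contDiff (hr1 : r ≤ 1 / 16) (hK : 1 ≤ K) (i : Fin n) : ContDiff ℝ ∞ (lam hr K i) := by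
  unfold lam
  refine ContDiff.div ?_ (xx_contDiff hr hr1 K i) fun z => (xx_pos hr hK i z).ne'
  exact (PP_contDiff hr hr1 K).rpow_const_of_ne fun z => (PP_pos hr hK z).ne'

lemma xx_per (K : ℝ) (i : Fin n) : Per (xx hr K i) := by
  intro a b z
  unfold xx
  have : ∀ j, kap hr ((z + latt a b) j) = kap hr (z j) := fun j => kap_per hr (z j) (a j) (b j)
  simp_rw [this]

lemma lam_per (K : ℝ) (i : Fin n) : Per (lam hr K i) := by
  intro a b z
  unfold lam PP
  simp_rw [fun i => xx_per hr K i a b z]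

/-- the balanced metric -/
noncomputable def met (hr1 : r ≤ 1 / 16) (hK : 1 ≤ K) : HermitianMetric n where
  h z := Matrix.diagonal fun i => (lam hr K i z : ℂ)
  smooth j k := by
    by_cases h : j = k
    · subst h
      simp only [Matrix.diagonal_apply_eq]
      exact Complex.ofRealCLM.contDiff.comp (lam_contDiff hr hr1 hK j)
    · simp only [Matrix.diagonal_apply_ne _ h]
      exact contDiff_const
  periodic a b z := by
    simp_rw [fun i => lam_per hr K i a b z]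
  posDef z := Matrix.PosDef.diagonal fun i => by exact_mod_cast lam_pos hr hK i z

lemma lam_near (hr1 : r ≤ 1 / 16) (hn : 2 ≤ n) (K : ℝ) {z : Cn n} (hz : usq z < 1 / 16)
    (i : Fin n) : lam hr K i z = 1 := by
  have h1 : ∀ j, kap hr (z j) = 0 := by
    intro j
    apply kap_near hr hr1
    have := (norm_le_usq z j).trans_lt hz
    nlinarith [norm_nonneg (z j)]
  have h2 : ∀ i, xx hr K i z = 1 := by
    intro i
    unfold xx
    have : ∃ j, j ∈ Finset.univ.erase i := by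
      have : (Finset.univ.erase i : Finset (Fin n)).Nonempty := by
        rw [← Finset.card_pos, Finset.card_erase_of_mem (Finset.mem_univ i)]
        simp
        omega
      exact this
    obtain ⟨j, hj⟩ := this
    rw [Finset.prod_eq_zero hj (h1 j)]
    ring
  unfold lam PP
  simp_rw [h2]
  simp

lemma prod_erase_lam (hn : 2 ≤ n) (hK : 1 ≤ K) (i : Fin n) (z : Cn n) :
    ∏ j ∈ Finset.univ.erase i, lam hr K j z = xx hr K i z := by
  unfold lam
  rw [Finset.prod_div_distrib, Finset.prod_const, Finset.card_erase_of_mem (Finset.mem_univ i),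
    Finset.card_univ, Fintype.card_fin]
  have hn1 : ((n - 1 : ℕ) : ℝ) = (n : ℝ) - 1 := by
    rw [Nat.cast_sub (by omega)]
    simp
  have hn2 : (0 : ℝ) < (n : ℝ) - 1 := by
    have : (2 : ℝ) ≤ n := by exact_mod_cast hn
    linarith
  have h1 : (PP hr K z ^ (1 / ((n : ℝ) - 1))) ^ (n - 1) = PP hr K z := by
    rw [← Real.rpow_natCast, ← Real.rpow_mul (PP_pos hr hK z).le, hn1, one_div,
      inv_mul_cancel₀ hn2.ne', Real.rpow_one]
  rw [h1]
  unfold PP
  rw [← Finset.mul_prod_erase Finset.univ (fun j => xx hr K j z) (Finset.mem_univ i)]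
  have h2 : (∏ j ∈ Finset.univ.erase i, xx hr K j z) ≠ 0 :=
    (Finset.prod_pos fun j _ => xx_pos hr hK j z).ne'
  field_simp

lemma xx_indep (hr1 : r ≤ 1 / 16) (K : ℝ) (i : Fin n) (z : Cn n) (c : ℂ) :
    fderiv ℝ (fun w : Cn n => ((xx hr K i w : ℝ) : ℂ)) z (Pi.single i c) = 0 := by
  have h1 : ContDiff ℝ ∞ fun w : Cn n => ((xx hr K i w : ℝ) : ℂ) :=
    Complex.ofRealCLM.contDiff.comp (xx_contDiff hr hr1 K i)
  have h2 : HasFDerivAt (fun w : Cn n => ((xx hr K i w : ℝ) : ℂ)) _ z :=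
    ((h1.differentiable (by simp)) z).hasFDerivAt
  have h3 := h2.hasLineDerivAt (Pi.single i c)
  have h4 : (fun t : ℝ => ((xx hr K i (z + t • (Pi.single i c : Cn n)) : ℝ) : ℂ)) =
      fun _ => ((xx hr K i z : ℝ) : ℂ) := by
    funext t
    congr 1
    unfold xx
    congr 2
    refine Finset.prod_congr rfl fun j hj => ?_
    have hj' : j ≠ i := Finset.ne_of_mem_erase hj
    simp [Pi.single_eq_of_ne hj']
  unfold HasLineDerivAt at h3
  rw [h4] at h3
  exact h3.unique (hasDerivAt_const _ _)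

lemma met_isBalanced (hr1 : r ≤ 1 / 16) (hn : 2 ≤ n) (hK : 1 ≤ K) :
    (met (n := n) hr hr1 hK).IsBalanced := by
  intro j z
  have h1 : ∀ k, dzb k (fun w => ((met (n := n) hr hr1 hK).h w).adjugate k j) z = 0 := by
    intro k
    by_cases h : k = j
    · subst h
      have h2 : (fun w => ((met (n := n) hr hr1 hK).h w).adjugate k k) =
          fun w => ((xx hr K k w : ℝ) : ℂ) := by
        funext w
        change (Matrix.diagonal fun i => (lam hr K i w : ℂ)).adjugate k k = _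
        rw [Matrix.adjugate_diagonal, Matrix.diagonal_apply_eq, ← prod_erase_lam hr hn hK k w]
        push_cast
        rfl
      rw [h2]
      unfold dzb
      rw [xx_indep hr hr1, xx_indep hr hr1]
      simp
    · have h2 : (fun w => ((met (n := n) hr hr1 hK).h w).adjugate k j) = fun w => 0 := by
        funext w
        change (Matrix.diagonal fun i => (lam hr K i w : ℂ)).adjugate k j = _
        rw [Matrix.adjugate_diagonal, Matrix.diagonal_apply_ne _ h]
      rw [h2, dzb_const]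
  simp_rw [h1]
  simp

end metric

end Pool.Agent.H32.Torus
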