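import Pool.Agent.H32.Torus.Test

open MeasureTheory Filter Topology Complex Set
open scoped ContDiff ComplexOrder ComplexConjugate

namespace Pool.Agent.H32.Torus

variable {n : ℕ}

/-- distance to the nearest integer -/
noncomputable def dInt (x : ℝ) : ℝ := |x - round x|

lemma dInt_le_add (x y : ℝ) : dInt x ≤ |x - y| + dInt y := by
  unfold dInt
  calc |x - round x| ≤ |x - round y| := round_le x (round y)
    _ = |(x - y) + (y - round y)| := by ring_nf
    _ ≤ _ := abs_add_le _ _

lemma continuous_dInt : Continuous dInt := by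
  rw [Metric.continuous_iff]
  intro x ε hε
  refine ⟨ε, hε, fun y hy => ?_⟩
  rw [Real.dist_eq] at hy ⊢
  rw [abs_lt]
  have h1 := dInt_le_add x y
  have h2 := dInt_le_add y x
  rw [abs_sub_comm] at h1
  constructor <;> linarith

lemma round_eventually {x : ℝ} (h : dInt x < 1 / 2) : ∀ᶠ y in 𝓝 x, round y = round x := by
  unfold dInt at h
  rw [abs_lt] at h
  have h1 : ∀ᶠ y in 𝓝 x, y < (round x : ℝ) + 1 / 2 := eventually_lt_nhds (by linarith [h.2])
  have h2 : ∀ᶠ y in 𝓝 x, (round x : ℝ) - 1 / 2 < y := eventually_gt_nhds (by linarith [h.1])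
  filter_upwards [h1, h2] with y hy1 hy2
  rw [round_eq, Int.floor_eq_iff]
  constructor <;> linarith

lemma round_zero_of_mem {x : ℝ} (h : x ∈ Ico (-1 / 2 : ℝ) (1 / 2)) : round x = 0 := by
  rw [round_eq, Int.floor_eq_iff]
  push_cast
  constructor <;> linarith [h.1, h.2]

/-- nearest lattice point -/
noncomputable def rnd (z : Cn n) : Cn n := latt (fun j => round (z j).re) fun j => round (z j).im

/-- `z` modulo the lattice -/
noncomputable def frc (z : Cn n) : Cn n := z - rnd z

lemma frc_re (z : Cn n) (j : Fin n) : (frc z j).re = (z j).re - round (z j).re := by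
  simp [frc, rnd, latt]

lemma frc_im (z : Cn n) (j : Fin n) : (frc z j).im = (z j).im - round (z j).im := by
  simp [frc, rnd, latt]

lemma frc_per : Per (frc (n := n)) := by
  intro a b z
  funext j
  apply Complex.ext
  · rw [frc_re, frc_re]
    simp [latt, round_add_intCast]
  · rw [frc_im, frc_im]
    simp [latt, round_add_intCast]

lemma rnd_eq_zero {z : Cn n} (h : z ∈ cell n) : rnd z = 0 := by
  funext j
  have := h j
  simp only [rnd, latt]
  rw [round_zero_of_mem this.1, round_zero_of_mem this.2]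
  simp

lemma frc_eq {z : Cn n} (h : z ∈ cell n) : frc z = z := by
  unfold frc
  rw [rnd_eq_zero h, sub_zero]

lemma rnd_eventually {z : Cn n} (h : ∀ j, dInt (z j).re < 1 / 2 ∧ dInt (z j).im < 1 / 2) :
    ∀ᶠ w in 𝓝 z, rnd w = rnd z := by
  have h1 : ∀ j, ∀ᶠ w : Cn n in 𝓝 z, round (w j).re = round (z j).re := by
    intro j
    have hc : Continuous fun w : Cn n => (w j).re := Complex.continuous_re.comp (continuous_apply j)
    exact (hc.tendsto z).eventually (round_eventually (h j).1)
  have h2 : ∀ j, ∀ᶠ w : Cn n in 𝓝 z, round (w j).im = round (z j).im := by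
    intro j
    have hc : Continuous fun w : Cn n => (w j).im := Complex.continuous_im.comp (continuous_apply j)
    exact (hc.tendsto z).eventually (round_eventually (h j).2)
  filter_upwards [eventually_all.2 h1, eventually_all.2 h2] with w hw1 hw2
  unfold rnd
  simp_rw [hw1, hw2]

section
variable {F : Type*} [NormedAddCommGroup F] [NormedSpace ℝ F]

lemma periodize_aux {f : Cn n → F} {c : F} {q : ℝ} (hq : q < 1 / 2)
    (hf : ∀ z, (∃ j, q < |(z j).re| ∨ q < |(z j).im|) → f z = c) (z : Cn n) :
    ((∀ᶠ w in 𝓝 z, f (frc w) = f (w - rnd z)) ∧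
      ∀ j, dInt (z j).re < 1 / 2 ∧ dInt (z j).im < 1 / 2) ∨
    ((∀ᶠ w in 𝓝 z, f (frc w) = c) ∧ ∃ j, 1 / 2 ≤ dInt (z j).re ∨ 1 / 2 ≤ dInt (z j).im) := by
  by_cases h : ∀ j, dInt (z j).re < 1 / 2 ∧ dInt (z j).im < 1 / 2
  · left
    refine ⟨?_, h⟩
    filter_upwards [rnd_eventually h] with w hw
    unfold frc
    rw [hw]
  · right
    push Not at h
    obtain ⟨j, hj⟩ := h
    have hj' : 1 / 2 ≤ dInt (z j).re ∨ 1 / 2 ≤ dInt (z j).im := by
      by_cases h1 : dInt (z j).re < 1 / 2
      · right; exact hj h1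
      · left; linarith
    refine ⟨?_, j, hj'⟩
    rcases hj' with h1 | h1
    · have hc : Continuous fun w : Cn n => dInt (w j).re :=
        continuous_dInt.comp (Complex.continuous_re.comp (continuous_apply j))
      filter_upwards [(hc.tendsto z).eventually_const_lt (lt_of_lt_of_le hq h1)] with w hw
      apply hf
      refine ⟨j, Or.inl ?_⟩
      rw [frc_re]
      exact hw
    · have hc : Continuous fun w : Cn n => dInt (w j).im :=
        continuous_dInt.comp (Complex.continuous_im.comp (continuous_apply j))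
      filter_upwards [(hc.tendsto z).eventually_const_lt (lt_of_lt_of_le hq h1)] with w hw
      apply hf
      refine ⟨j, Or.inr ?_⟩
      rw [frc_im]
      exact hw

lemma periodize_per (f : Cn n → F) : Per fun z => f (frc z) := by
  intro a b z
  simp only
  rw [frc_per a b z]

lemma periodize_contDiff {f : Cn n → F} {c : F} {q : ℝ} (hq : q < 1 / 2) (hs : ContDiff ℝ ∞ f)
    (hf : ∀ z, (∃ j, q < |(z j).re| ∨ q < |(z j).im|) → f z = c) :
    ContDiff ℝ ∞ fun z => f (frc z) := by
  rw [contDiff_iff_contDiffAt]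
  intro z
  rcases periodize_aux hq hf z with h | h
  · have h1 : ContDiffAt ℝ ∞ (fun w => f (w - rnd z)) z :=
      (hs.comp (contDiff_id.sub contDiff_const)).contDiffAt
    exact h1.congr_of_eventuallyEq h.1
  · exact contDiffAt_const.congr_of_eventuallyEq h.1

lemma periodize_eventuallyEq {f : Cn n → F} {c : F} {q : ℝ} (hq : q < 1 / 2)
    (hf : ∀ z, (∃ j, q < |(z j).re| ∨ q < |(z j).im|) → f z = c) {z : Cn n} (hz : z ∈ cell n) :
    (fun w => f (frc w)) =ᶠ[𝓝 z] f := by
  rcases periodize_aux hq hf z with h | h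
  · filter_upwards [h.1] with w hw
    rw [hw, rnd_eq_zero hz, sub_zero]
  · obtain ⟨j, hj⟩ := h.2
    have : ∀ᶠ w in 𝓝 z, f w = c := by
      rcases hj with h1 | h1
      · have h2 : q < |(z j).re| := by
          unfold dInt at h1
          rw [round_zero_of_mem (hz j).1] at h1
          simp only [Int.cast_zero, sub_zero] at h1
          linarith
        have hc : Continuous fun w : Cn n => |(w j).re| :=
          continuous_abs.comp (Complex.continuous_re.comp (continuous_apply j))
        filter_upwards [(hc.tendsto z).eventually_const_lt h2] with w hw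
        exact hf w ⟨j, Or.inl hw⟩
      · have h2 : q < |(z j).im| := by
          unfold dInt at h1
          rw [round_zero_of_mem (hz j).2] at h1
          simp only [Int.cast_zero, sub_zero] at h1
          linarith
        have hc : Continuous fun w : Cn n => |(w j).im| :=
          continuous_abs.comp (Complex.continuous_im.comp (continuous_apply j))
        filter_upwards [(hc.tendsto z).eventually_const_lt h2] with w hw
        exact hf w ⟨j, Or.inr hw⟩
    filter_upwards [h.1, this] with w hw1 hw2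
    rw [hw1, hw2]

end

/-! ### the periodic test matrix -/

lemma usq_ge_of_re {z : Cn n} {j : Fin n} (h : 1 / 4 < |(z j).re| ∨ 1 / 4 < |(z j).im|) :
    1 / 16 ≤ usq z := by
  have h1 : (1 / 4 : ℝ) ≤ ‖z j‖ := by
    rcases h with h | h
    · exact h.le.trans (Complex.abs_re_le_norm _)
    · exact h.le.trans (Complex.abs_im_le_norm _)
  have h2 : (1 / 16 : ℝ) ≤ ‖z j‖ ^ 2 := by nlinarith
  exact h2.trans (norm_le_usq z j)

/-- the periodic test matrix -/
noncomputable def ptst (n : ℕ) (L : ℝ) (z : Cn n) : Matrix (Fin n) (Fin n) ℂ := tst n L (frc z)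

lemma tst_apply_const {L : ℝ} (j k : Fin n) (z : Cn n)
    (hz : ∃ l, (1 / 4 : ℝ) < |(z l).re| ∨ (1 / 4 : ℝ) < |(z l).im|) :
    tst n L z j k = (((L * bmax n : ℝ) : ℂ) • (1 : Matrix (Fin n) (Fin n) ℂ)) j k := by
  obtain ⟨l, hl⟩ := hz
  rw [tst_const (usq_ge_of_re hl)]

lemma ptst_contDiff (hn : n ≠ 0) (L : ℝ) (j k : Fin n) :
    ContDiff ℝ ∞ fun z => ptst n L z j k :=
  periodize_contDiff (f := fun z => tst n L z j k) (q := 1 / 4) (by norm_num)
    (tst_contDiff hn L j k) (tst_apply_const j k)

lemma ptst_per (L : ℝ) : Per (ptst n L) := by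
  intro a b z
  unfold ptst
  rw [frc_per a b z]

lemma ptst_posSemidef {L : ℝ} (hL : 0 ≤ L) (z : Cn n) : (ptst n L z).PosSemidef :=
  tst_posSemidef hL _

lemma ptst_eq {L : ℝ} {z : Cn n} (hz : z ∈ cell n) : ptst n L z = tst n L z := by
  unfold ptst
  rw [frc_eq hz]

lemma divdiv_ptst (hn : n ≠ 0) {L : ℝ} (hL : L0 ≤ L) {z : Cn n} (hz : z ∈ cell n) :
    ∑ j, ∑ k, dz j (dzb k fun w => ptst n L w j k) z =
      ((PL n L (usq z) + RR n (usq z) : ℝ) : ℂ) := by
  rw [← divdiv_tst hn hL z]
  refine Finset.sum_congr rfl fun j _ => Finset.sum_congr rfl fun k _ => ?_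
  apply dz_congr
  apply dzb_congr'
  exact periodize_eventuallyEq (f := fun z => tst n L z j k) (q := 1 / 4) (by norm_num)
    (tst_apply_const j k) hz

end Pool.Agent.H32.Torus
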