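import Pool.Agent.H32.Torus.Radial

open MeasureTheory Filter Topology Complex Set
open scoped ContDiff ComplexOrder ComplexConjugate

namespace Pool.Agent.H32.Torus

/-- antiderivative vanishing at `0` -/
noncomputable def prim (g : ℝ → ℝ) (x : ℝ) : ℝ := ∫ t in (0 : ℝ)..x, g t

lemma prim_hasDerivAt {g : ℝ → ℝ} (hg : Continuous g) (x : ℝ) : HasDerivAt (prim g) (g x) x :=
  intervalIntegral.integral_hasDerivAt_right (hg.intervalIntegrable _ _)
    hg.stronglyMeasurable.stronglyMeasurableAtFilter hg.continuousAt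

lemma prim_contDiff {g : ℝ → ℝ} (hg : ContDiff ℝ ∞ g) : ContDiff ℝ ∞ (prim g) := by
  rw [contDiff_infty_iff_deriv]
  refine ⟨fun x => (prim_hasDerivAt hg.continuous x).differentiableAt, ?_⟩
  have : deriv (prim g) = g := by
    funext x
    exact (prim_hasDerivAt hg.continuous x).deriv
  rwa [this]

/-- a bump on `(0,1)` -/
noncomputable def bump0 : ContDiffBump (1 / 2 : ℝ) := ⟨1 / 4, 1 / 2, by norm_num, by norm_num⟩

/-- bump on `(0,1)` with integral one -/
noncomputable def rho : ℝ → ℝ := bump0.normed volume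

lemma rho_contDiff : ContDiff ℝ ∞ rho := bump0.contDiff_normed

lemma rho_nonneg (x : ℝ) : 0 ≤ rho x := bump0.nonneg_normed x

lemma rho_zero {x : ℝ} (h : x ≤ 0 ∨ 1 ≤ x) : rho x = 0 := by
  by_contra hne
  have h1 : x ∈ Function.support rho := hne
  unfold rho at h1
  rw [bump0.support_normed_eq] at h1
  rw [Metric.mem_ball, Real.dist_eq, abs_lt] at h1
  have : bump0.rOut = 1 / 2 := rfl
  rw [this] at h1
  rcases h with h | h <;> linarith [h1.1, h1.2]

lemma rho_integral : ∫ x, rho x = 1 := bump0.integral_normed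

lemma integral_rho_Ioc : ∫ t in (0 : ℝ)..1, rho t = 1 := by
  rw [intervalIntegral.integral_of_le (by norm_num),
    setIntegral_eq_integral_of_forall_compl_eq_zero, rho_integral]
  intro x hx
  apply rho_zero
  rw [mem_Ioc, not_and_or] at hx
  rcases hx with h | h
  · left; linarith
  · right; linarith

/-- a smooth step from `0` (for `x ≤ 0`) to `1` (for `x ≥ 1`) -/
noncomputable def stp : ℝ → ℝ := prim rho

lemma stp_contDiff : ContDiff ℝ ∞ stp := prim_contDiff rho_contDiff

lemma stp_hasDerivAt (x : ℝ) : HasDerivAt stp (rho x) x := prim_hasDerivAt rho_contDiff.continuous x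

lemma stp_mono : Monotone stp := by
  apply monotone_of_deriv_nonneg (fun x => (stp_hasDerivAt x).differentiableAt)
  intro x
  rw [(stp_hasDerivAt x).deriv]
  exact rho_nonneg x

lemma stp_of_nonpos {x : ℝ} (h : x ≤ 0) : stp x = 0 := by
  unfold stp prim
  rw [intervalIntegral.integral_symm, intervalIntegral.integral_congr (g := fun _ => 0)]
  · simp
  · intro t ht
    rw [uIcc_of_le h] at ht
    exact rho_zero (Or.inl ht.2)

lemma stp_of_one_le {x : ℝ} (h : 1 ≤ x) : stp x = 1 := by
  have h1 : ∫ t in (1 : ℝ)..x, rho t = 0 := by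
    rw [intervalIntegral.integral_congr (g := fun _ => 0)]
    · simp
    · intro t ht
      rw [uIcc_of_le h] at ht
      exact rho_zero (Or.inr ht.1)
  unfold stp prim
  rw [← intervalIntegral.integral_add_adjacent_intervals (b := 1)
    (rho_contDiff.continuous.intervalIntegrable _ _)
    (rho_contDiff.continuous.intervalIntegrable _ _), h1, integral_rho_Ioc]
  simp

lemma stp_nonneg (x : ℝ) : 0 ≤ stp x := by
  rcases le_total x 0 with h | h
  · rw [stp_of_nonpos h]
  · rw [← stp_of_nonpos le_rfl]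
    exact stp_mono h

lemma stp_le_one (x : ℝ) : stp x ≤ 1 := by
  rcases le_total x 1 with h | h
  · rw [← stp_of_one_le le_rfl]
    exact stp_mono h
  · rw [stp_of_one_le h]

/-- smooth version of `max x 0` -/
noncomputable def sp : ℝ → ℝ := prim stp

lemma sp_contDiff : ContDiff ℝ ∞ sp := prim_contDiff stp_contDiff

lemma sp_hasDerivAt (x : ℝ) : HasDerivAt sp (stp x) x := prim_hasDerivAt stp_contDiff.continuous x

lemma sp_of_nonpos {x : ℝ} (h : x ≤ 0) : sp x = 0 := by
  unfold sp prim
  rw [intervalIntegral.integral_symm, intervalIntegral.integral_congr (g := fun _ => 0)]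
  · simp
  · intro t ht
    rw [uIcc_of_le h] at ht
    exact stp_of_nonpos ht.2

/-- `sp x = x - cs` for `x ≥ 1` -/
noncomputable def cs : ℝ := 1 - sp 1

lemma sp_of_one_le {x : ℝ} (h : 1 ≤ x) : sp x = x - cs := by
  have h1 : ∫ t in (1 : ℝ)..x, stp t = x - 1 := by
    rw [intervalIntegral.integral_congr (g := fun _ => 1)]
    · simp
    · intro t ht
      rw [uIcc_of_le h] at ht
      exact stp_of_one_le ht.1
  unfold cs sp prim
  rw [← intervalIntegral.integral_add_adjacent_intervals (b := 1) (c := x)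
    (stp_contDiff.continuous.intervalIntegrable _ _)
    (stp_contDiff.continuous.intervalIntegrable _ _), h1]
  ring

lemma sp_mono : Monotone sp := by
  apply monotone_of_deriv_nonneg (fun x => (sp_hasDerivAt x).differentiableAt)
  intro x
  rw [(sp_hasDerivAt x).deriv]
  exact stp_nonneg x

lemma sp_nonneg (x : ℝ) : 0 ≤ sp x := by
  rcases le_total x 0 with h | h
  · rw [sp_of_nonpos h]
  · rw [← sp_of_nonpos le_rfl]
    exact sp_mono h

lemma sp_le {x : ℝ} (h : 0 ≤ x) : sp x ≤ x := by
  have h1 : Monotone fun x => x - sp x := by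
    apply monotone_of_deriv_nonneg
    · intro x
      exact differentiableAt_id.sub (sp_hasDerivAt x).differentiableAt
    · intro x
      have := ((hasDerivAt_id x).sub (sp_hasDerivAt x)).deriv
      have e : (fun x => x - sp x) = id - sp := rfl
      rw [e, this]
      linarith [stp_le_one x]
  have h2 := h1 h
  simp only [sp_of_nonpos le_rfl] at h2
  linarith

/-- a bump on `(1/64, 1/16)` -/
noncomputable def bump1 : ContDiffBump (5 / 128 : ℝ) := ⟨1 / 128, 3 / 128, by norm_num, by norm_num⟩

/-- bump on `(1/64, 1/16)` with integral one -/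
noncomputable def rh : ℝ → ℝ := bump1.normed volume

lemma rh_contDiff : ContDiff ℝ ∞ rh := bump1.contDiff_normed

lemma rh_nonneg (x : ℝ) : 0 ≤ rh x := bump1.nonneg_normed x

lemma rh_zero {x : ℝ} (h : x ≤ 1 / 64 ∨ 1 / 16 ≤ x) : rh x = 0 := by
  by_contra hne
  have h1 : x ∈ Function.support rh := hne
  unfold rh at h1
  rw [bump1.support_normed_eq] at h1
  rw [Metric.mem_ball, Real.dist_eq, abs_lt] at h1
  have : bump1.rOut = 3 / 128 := rfl
  rw [this] at h1
  rcases h with h | h <;> linarith [h1.1, h1.2]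

lemma rh_integral : ∫ x, rh x = 1 := bump1.integral_normed

lemma prim_rh_of_le {x : ℝ} (h : x ≤ 1 / 64) : prim rh x = 0 := by
  unfold prim
  rw [intervalIntegral.integral_congr (g := fun _ => 0)]
  · simp
  · intro t ht
    apply rh_zero
    left
    have := ht.2
    rcases le_total 0 x with h0 | h0
    · rw [uIcc_of_le h0] at ht
      exact ht.2.trans h
    · rw [uIcc_of_ge h0] at ht
      exact ht.2.trans (by norm_num)

lemma prim_rh_of_ge {x : ℝ} (h : 1 / 16 ≤ x) : prim rh x = 1 := by
  unfold prim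
  rw [intervalIntegral.integral_of_le (by linarith), ← rh_integral,
    setIntegral_eq_integral_of_forall_compl_eq_zero]
  intro t ht
  apply rh_zero
  rw [mem_Ioc, not_and_or] at ht
  rcases ht with h' | h'
  · left; linarith
  · right; linarith

/-- cutoff: `1` for `u ≤ 1/64`, `0` for `u ≥ 1/16` -/
noncomputable def cut (x : ℝ) : ℝ := 1 - prim rh x

lemma cut_contDiff : ContDiff ℝ ∞ cut := contDiff_const.sub (prim_contDiff rh_contDiff)

lemma cut_hasDerivAt (x : ℝ) : HasDerivAt cut (-rh x) x := by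
  have := (prim_hasDerivAt rh_contDiff.continuous x).const_sub 1
  exact this

lemma cut_of_le {x : ℝ} (h : x ≤ 1 / 64) : cut x = 1 := by
  unfold cut; rw [prim_rh_of_le h]; ring

lemma cut_of_ge {x : ℝ} (h : 1 / 16 ≤ x) : cut x = 0 := by
  unfold cut; rw [prim_rh_of_ge h]; ring

lemma cut_anti : Antitone cut := by
  apply antitone_of_deriv_nonpos (fun x => (cut_hasDerivAt x).differentiableAt)
  intro x
  rw [(cut_hasDerivAt x).deriv]
  linarith [rh_nonneg x]

lemma cut_nonneg (x : ℝ) : 0 ≤ cut x := by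
  rcases le_total x (1 / 16) with h | h
  · rw [← cut_of_ge le_rfl]
    exact cut_anti h
  · rw [cut_of_ge h]

lemma cut_le_one (x : ℝ) : cut x ≤ 1 := by
  rcases le_total x (1 / 64) with h | h
  · rw [cut_of_le h]
  · rw [← cut_of_le le_rfl]
    exact cut_anti h

/-- `v ρ₁(v)` -/
noncomputable def qq (v : ℝ) : ℝ := v * rh v

lemma qq_contDiff : ContDiff ℝ ∞ qq := contDiff_id.mul rh_contDiff

lemma qq_hasDerivAt (v : ℝ) : HasDerivAt qq (deriv qq v) v :=
  ((qq_contDiff.differentiable (by simp)) v).hasDerivAt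

lemma qq_zero {x : ℝ} (h : x ≤ 1 / 64 ∨ 1 / 16 ≤ x) : qq x = 0 := by
  unfold qq; rw [rh_zero h, mul_zero]

lemma dqq_zero {x : ℝ} (h : x < 1 / 64 ∨ 1 / 16 < x) : deriv qq x = 0 := by
  have : qq =ᶠ[𝓝 x] fun _ => 0 := by
    rcases h with h | h
    · filter_upwards [Iio_mem_nhds h] with y hy
      exact qq_zero (Or.inl (le_of_lt hy))
    · filter_upwards [Ioi_mem_nhds h] with y hy
      exact qq_zero (Or.inr (le_of_lt hy))
  rw [this.deriv_eq]
  simp

lemma dqq_contDiff : ContDiff ℝ ∞ (deriv qq) := by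
  have := qq_contDiff
  rw [contDiff_infty_iff_deriv] at this
  exact this.2

/-- a function which is smooth away from a neighbourhood of `0` divided by `v^n` -/
lemma div_pow_contDiff {g : ℝ → ℝ} (n : ℕ) (hg : ContDiff ℝ ∞ g) (h0 : ∀ x < 1 / 64, g x = 0) :
    ContDiff ℝ ∞ fun v => g v / v ^ n := by
  rw [contDiff_iff_contDiffAt]
  intro x
  rcases lt_or_ge x (1 / 64) with h | h
  · have : (fun v => g v / v ^ n) =ᶠ[𝓝 x] fun _ => 0 := by
      filter_upwards [Iio_mem_nhds h] with y hy
      rw [h0 y hy, zero_div]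
    exact contDiffAt_const.congr_of_eventuallyEq this
  · have hx : x ≠ 0 := by intro h'; rw [h'] at h; norm_num at h
    exact hg.contDiffAt.div (contDiffAt_id.pow n) (pow_ne_zero n hx)

/-- `b` -/
noncomputable def bfun (n : ℕ) : ℝ → ℝ := prim fun v => qq v / v ^ n

lemma qn_contDiff (n : ℕ) : ContDiff ℝ ∞ fun v => qq v / v ^ n :=
  div_pow_contDiff n qq_contDiff fun x hx => qq_zero (Or.inl hx.le)

lemma bfun_contDiff (n : ℕ) : ContDiff ℝ ∞ (bfun n) := prim_contDiff (qn_contDiff n)

lemma bfun_hasDerivAt (n : ℕ) (x : ℝ) : HasDerivAt (bfun n) (qq x / x ^ n) x :=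
  prim_hasDerivAt (qn_contDiff n).continuous x

lemma qn_nonneg (n : ℕ) (x : ℝ) : 0 ≤ qq x / x ^ n := by
  rcases le_total x (1 / 64) with h | h
  · rw [qq_zero (Or.inl h), zero_div]
  · have : 0 < x := lt_of_lt_of_le (by norm_num) h
    have := rh_nonneg x
    unfold qq
    positivity

lemma bfun_mono (n : ℕ) : Monotone (bfun n) := by
  apply monotone_of_deriv_nonneg (fun x => (bfun_hasDerivAt n x).differentiableAt)
  intro x
  rw [(bfun_hasDerivAt n x).deriv]
  exact qn_nonneg n x

lemma bfun_of_le (n : ℕ) {x : ℝ} (h : x ≤ 1 / 64) : bfun n x = 0 := by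
  unfold bfun prim
  rw [intervalIntegral.integral_congr (g := fun _ => 0)]
  · simp
  · intro t ht
    have : t ≤ 1 / 64 := by
      rcases le_total 0 x with h0 | h0
      · rw [uIcc_of_le h0] at ht
        exact ht.2.trans h
      · rw [uIcc_of_ge h0] at ht
        exact ht.2.trans (by norm_num)
    simp only
    rw [qq_zero (Or.inl this), zero_div]

/-- the final value of `b` -/
noncomputable def bmax (n : ℕ) : ℝ := bfun n (1 / 16)

lemma bfun_of_ge (n : ℕ) {x : ℝ} (h : 1 / 16 ≤ x) : bfun n x = bmax n := by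
  unfold bmax bfun prim
  rw [← intervalIntegral.integral_add_adjacent_intervals (b := 1 / 16) (c := x)
    ((qn_contDiff n).continuous.intervalIntegrable _ _)
    ((qn_contDiff n).continuous.intervalIntegrable _ _)]
  have : ∫ t in (1 / 16 : ℝ)..x, qq t / t ^ n = 0 := by
    rw [intervalIntegral.integral_congr (g := fun _ => 0)]
    · simp
    · intro t ht
      rw [uIcc_of_le h] at ht
      simp only
      rw [qq_zero (Or.inr ht.1), zero_div]
  rw [this, add_zero]

lemma bfun_nonneg (n : ℕ) (x : ℝ) : 0 ≤ bfun n x := by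
  rcases le_total x (1 / 64) with h | h
  · rw [bfun_of_le n h]
  · rw [← bfun_of_le n le_rfl]
    exact bfun_mono n h

lemma bfun_le (n : ℕ) (x : ℝ) : bfun n x ≤ bmax n := by
  rcases le_total x (1 / 16) with h | h
  · exact bfun_mono n h
  · rw [bfun_of_ge n h]

lemma bmax_nonneg (n : ℕ) : 0 ≤ bmax n := bfun_nonneg n _

/-- `a_Λ(u) = χ(u) σ(log u + Λ) / uⁿ` -/
noncomputable def afun (n : ℕ) (L : ℝ) (u : ℝ) : ℝ := cut u * sp (Real.log u + L) / u ^ n

end Pool.Agent.H32.Torus
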