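import Pool.Agent.H32.Torus.Calc

open MeasureTheory Filter Topology Complex Set
open scoped ContDiff ComplexOrder ComplexConjugate

namespace Pool.Agent.H32.Torus

variable {n : ℕ}

/-- The matrix `a(|z|²) z z^* + b(|z|²) I`. -/
noncomputable def radMat (a b : ℝ → ℝ) (w : Cn n) : Matrix (Fin n) (Fin n) ℂ :=
  Matrix.of fun j k => ((a (usq w) : ℝ) : ℂ) * (w j * conj (w k)) +
    if j = k then ((b (usq w) : ℝ) : ℂ) else 0

lemma radMat_apply (a b : ℝ → ℝ) (w : Cn n) (j k : Fin n) :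
    radMat a b w j k = ((a (usq w) : ℝ) : ℂ) * (w j * conj (w k)) +
      if j = k then ((b (usq w) : ℝ) : ℂ) else 0 := rfl

lemma radial_differentiableAt {g : ℝ → ℝ} {g' : ℝ} {z : Cn n} (hg : HasDerivAt g g' (usq z)) :
    DifferentiableAt ℝ (fun w : Cn n => ((g (usq w) : ℝ) : ℂ)) z := by
  obtain ⟨L, hL, -⟩ := usq_hasFDerivAt z
  exact (Complex.ofRealCLM.hasFDerivAt.comp z (hg.comp_hasFDerivAt z hL)).differentiableAt

lemma coord_differentiableAt (j : Fin n) (z : Cn n) :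
    DifferentiableAt ℝ (fun w : Cn n => w j) z := (coord_hasFDerivAt j z).differentiableAt

lemma conj_differentiableAt (j : Fin n) (z : Cn n) :
    DifferentiableAt ℝ (fun w : Cn n => conj (w j)) z := (conj_hasFDerivAt j z).differentiableAt

lemma dzb_radMat {a a1 b b1 : ℝ → ℝ} {w : Cn n} (ha : HasDerivAt a (a1 (usq w)) (usq w))
    (hb : HasDerivAt b (b1 (usq w)) (usq w)) (j k : Fin n) :
    dzb k (fun w => radMat a b w j k) w =
      ((a1 (usq w) : ℝ) : ℂ) * (w k * (w j * conj (w k))) + ((a (usq w) : ℝ) : ℂ) * w j +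
        if j = k then ((b1 (usq w) : ℝ) : ℂ) * w k else 0 := by
  have d1 := radial_differentiableAt (n := n) ha
  have d2 := coord_differentiableAt (n := n) j w
  have d3 := conj_differentiableAt (n := n) k w
  have e : (fun w : Cn n => radMat a b w j k) = fun w => ((a (usq w) : ℝ) : ℂ) * (w j * conj (w k)) +
      (if j = k then ((b (usq w) : ℝ) : ℂ) else 0) := rfl
  rw [e]
  have d4 : DifferentiableAt ℝ (fun w : Cn n => if j = k then ((b (usq w) : ℝ) : ℂ) else 0) w := by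
    by_cases h : j = k
    · simpa [h] using radial_differentiableAt (n := n) hb
    · simp [h]
  rw [dzb_add (f := fun w : Cn n => ((a (usq w) : ℝ) : ℂ) * (w j * conj (w k))) (d1.mul (d2.mul d3)) d4,
    dzb_mul (g := fun w : Cn n => w j * conj (w k)) d1 (d2.mul d3), dzb_mul d2 d3, dzb_radial ha,
    dzb_coord, dzb_conj]
  by_cases h : j = k
  · subst h
    simp only [if_true]
    rw [dzb_radial hb]
    ring
  · simp only [h, if_false, if_true, dzb_const]
    ring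

lemma dz_radMat_aux {a a1 a2 b1 b2 : ℝ → ℝ} {z : Cn n}
    (ha : HasDerivAt a (a1 (usq z)) (usq z))
    (ha1 : HasDerivAt a1 (a2 (usq z)) (usq z)) (hb1 : HasDerivAt b1 (b2 (usq z)) (usq z))
    (j k : Fin n) :
    dz j (fun w : Cn n => ((a1 (usq w) : ℝ) : ℂ) * (w k * (w j * conj (w k))) +
      ((a (usq w) : ℝ) : ℂ) * w j + if j = k then ((b1 (usq w) : ℝ) : ℂ) * w k else 0) z =
    ((a2 (usq z) * ‖z j‖ ^ 2 * ‖z k‖ ^ 2 + (if j = k then a1 (usq z) * ‖z k‖ ^ 2 else 0) +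
      a1 (usq z) * ‖z k‖ ^ 2 + a1 (usq z) * ‖z j‖ ^ 2 + a (usq z) +
      (if j = k then b2 (usq z) * ‖z k‖ ^ 2 + b1 (usq z) else 0) : ℝ) : ℂ) := by
  have d0 := radial_differentiableAt (n := n) ha
  have d1 := radial_differentiableAt (n := n) ha1
  have d2 := coord_differentiableAt (n := n) j z
  have d2' := coord_differentiableAt (n := n) k z
  have d3 := conj_differentiableAt (n := n) k z
  have d5 := radial_differentiableAt (n := n) hb1
  have d4 : DifferentiableAt ℝ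
      (fun w : Cn n => if j = k then ((b1 (usq w) : ℝ) : ℂ) * w k else 0) z := by
    by_cases h : j = k
    · simp only [h, if_true]
      exact d5.mul d2'
    · simp [h]
  rw [dz_add (f := fun w : Cn n => ((a1 (usq w) : ℝ) : ℂ) * (w k * (w j * conj (w k))) +
      ((a (usq w) : ℝ) : ℂ) * w j) ((d1.mul (d2'.mul (d2.mul d3))).add (d0.mul d2)) d4,
    dz_add (f := fun w : Cn n => ((a1 (usq w) : ℝ) : ℂ) * (w k * (w j * conj (w k))))
      (g := fun w : Cn n => ((a (usq w) : ℝ) : ℂ) * w j)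
      (d1.mul (d2'.mul (d2.mul d3))) (d0.mul d2),
    dz_mul (g := fun w : Cn n => w k * (w j * conj (w k))) d1 (d2'.mul (d2.mul d3)),
    dz_mul (g := fun w : Cn n => w j * conj (w k)) d2' (d2.mul d3), dz_mul d2 d3,
    dz_mul d0 d2, dz_radial ha1, dz_radial ha, dz_coord, dz_coord, dz_conj]
  have e1 : ∀ j : Fin n, z j * conj (z j) = ((‖z j‖ ^ 2 : ℝ) : ℂ) := by
    intro j
    rw [Complex.mul_conj, Complex.normSq_eq_norm_sq]
  have e2 : ∀ j : Fin n, conj (z j) * z j = ((‖z j‖ ^ 2 : ℝ) : ℂ) := by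
    intro j
    rw [mul_comm, e1]
  by_cases h : j = k
  · subst h
    simp only [if_true]
    rw [dz_mul d5 d2, dz_radial hb1, dz_coord]
    simp only [if_true]
    push_cast
    have := e1 j
    push_cast at this
    linear_combination (z j * conj (z j) * (a2 (usq z) : ℂ) + (a2 (usq z) : ℂ) * (‖z j‖ : ℂ) ^ 2 +
      3 * (a1 (usq z) : ℂ) + b2 (usq z)) * this
  · simp only [h, if_false, if_true, dz_const]
    push_cast
    have h1 := e1 j
    have h2 := e1 k
    push_cast at h1 h2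
    linear_combination ((a2 (usq z) : ℂ) * (z k * conj (z k)) + (a1 (usq z) : ℂ)) * h1 +
      ((a2 (usq z) : ℂ) * (‖z j‖ : ℂ) ^ 2 + (a1 (usq z) : ℂ)) * h2

/-- `∑ ∂_j ∂̄_k (a z_j z̄_k + b δ_jk) = n² a + (2n+1) u a' + u² a'' + n b' + u b''`, `u = |z|²`. -/
lemma divdiv_radMat {a a1 a2 b b1 b2 : ℝ → ℝ} {z : Cn n}
    (ha : ∀ᶠ w in 𝓝 z, HasDerivAt a (a1 (usq w)) (usq w))
    (hb : ∀ᶠ w in 𝓝 z, HasDerivAt b (b1 (usq w)) (usq w))
    (ha1 : HasDerivAt a1 (a2 (usq z)) (usq z)) (hb1 : HasDerivAt b1 (b2 (usq z)) (usq z)) :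
    ∑ j, ∑ k, dz j (dzb k fun w => radMat a b w j k) z =
      ((n ^ 2 * a (usq z) + (2 * n + 1) * usq z * a1 (usq z) + usq z ^ 2 * a2 (usq z) +
        n * b1 (usq z) + usq z * b2 (usq z) : ℝ) : ℂ) := by
  have h1 : ∀ j k : Fin n, dz j (dzb k fun w => radMat a b w j k) z =
      ((a2 (usq z) * ‖z j‖ ^ 2 * ‖z k‖ ^ 2 + (if j = k then a1 (usq z) * ‖z k‖ ^ 2 else 0) +
      a1 (usq z) * ‖z k‖ ^ 2 + a1 (usq z) * ‖z j‖ ^ 2 + a (usq z) +
      (if j = k then b2 (usq z) * ‖z k‖ ^ 2 + b1 (usq z) else 0) : ℝ) : ℂ) := by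
    intro j k
    rw [← dz_radMat_aux ha.self_of_nhds ha1 hb1 j k]
    apply dz_congr
    filter_upwards [ha, hb] with w hw1 hw2
    exact dzb_radMat hw1 hw2 j k
  simp_rw [h1]
  rw [← Finset.sum_congr rfl fun j _ => Complex.ofReal_sum _ _, ← Complex.ofReal_sum]
  congr 1
  have hu : ∑ j, ‖z j‖ ^ 2 = usq z := rfl
  have e1 : ∀ j : Fin n, ∑ k, (a2 (usq z) * ‖z j‖ ^ 2 * ‖z k‖ ^ 2 +
      (if j = k then a1 (usq z) * ‖z k‖ ^ 2 else 0) +
      a1 (usq z) * ‖z k‖ ^ 2 + a1 (usq z) * ‖z j‖ ^ 2 + a (usq z) +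
      (if j = k then b2 (usq z) * ‖z k‖ ^ 2 + b1 (usq z) else 0)) =
      a2 (usq z) * ‖z j‖ ^ 2 * usq z + a1 (usq z) * ‖z j‖ ^ 2 + a1 (usq z) * usq z +
      n * (a1 (usq z) * ‖z j‖ ^ 2) + n * a (usq z) + (b2 (usq z) * ‖z j‖ ^ 2 + b1 (usq z)) := by
    intro j
    rw [Finset.sum_add_distrib, Finset.sum_add_distrib, Finset.sum_add_distrib,
      Finset.sum_add_distrib, Finset.sum_add_distrib, ← Finset.mul_sum, ← Finset.mul_sum, hu]
    simp
  simp_rw [e1]
  rw [Finset.sum_add_distrib, Finset.sum_add_distrib, Finset.sum_add_distrib,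
      Finset.sum_add_distrib, Finset.sum_add_distrib, Finset.sum_add_distrib]
  have e2 : ∀ c : ℝ, ∑ j : Fin n, c * ‖z j‖ ^ 2 = c * usq z := fun c => by
    rw [← Finset.mul_sum, hu]
  simp only [← Finset.sum_mul, ← Finset.mul_sum, e2, hu, Finset.sum_const, Finset.card_univ,
    Fintype.card_fin, nsmul_eq_mul]
  ring

end Pool.Agent.H32.Torus
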