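import Pool.Agent.H32.Torus.Profile

open MeasureTheory Filter Topology Complex Set
open scoped ContDiff ComplexOrder ComplexConjugate

namespace Pool.Agent.H32.Torus

variable {n : ℕ}

lemma theta_div {α α1 : ℝ → ℝ} {v : ℝ} (hv : 0 < v) (h : HasDerivAt α (α1 v / v) v) (n : ℕ) :
    HasDerivAt (fun v => α v / v ^ n) ((α1 v - n * α v) / v ^ (n + 1)) v := by
  have h1 : HasDerivAt (fun v => α v / v ^ n) _ v :=
    h.div (hasDerivAt_pow n v) (pow_ne_zero n hv.ne')
  refine h1.congr_deriv ?_
  cases n with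
  | zero => simp
  | succ m =>
    simp only [Nat.add_sub_cancel]
    field_simp
    ring

/-- `α = χ σ` -/
noncomputable def al (L : ℝ) (v : ℝ) : ℝ := cut v * sp (Real.log v + L)

/-- `θ α` -/
noncomputable def al1 (L : ℝ) (v : ℝ) : ℝ :=
  -(qq v * sp (Real.log v + L)) + cut v * stp (Real.log v + L)

/-- `θ² α` -/
noncomputable def al2 (L : ℝ) (v : ℝ) : ℝ :=
  -(v * deriv qq v * sp (Real.log v + L)) - 2 * (qq v * stp (Real.log v + L)) +
    cut v * rho (Real.log v + L)

lemma log_add_hasDerivAt {v : ℝ} (hv : 0 < v) (L : ℝ) :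
    HasDerivAt (fun v => Real.log v + L) (1 / v) v := by
  have := (Real.hasDerivAt_log hv.ne').add_const L
  simpa using this

lemma al_hasDerivAt {v : ℝ} (hv : 0 < v) (L : ℝ) : HasDerivAt (al L) (al1 L v / v) v := by
  have h1 : HasDerivAt (fun v => sp (Real.log v + L)) (stp (Real.log v + L) * (1 / v)) v :=
    (sp_hasDerivAt _).comp v (log_add_hasDerivAt hv L)
  have h2 : HasDerivAt (al L) _ v := (cut_hasDerivAt v).mul h1
  refine h2.congr_deriv ?_
  unfold al1 qq
  field_simp

lemma al1_hasDerivAt {v : ℝ} (hv : 0 < v) (L : ℝ) : HasDerivAt (al1 L) (al2 L v / v) v := by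
  have h1 : HasDerivAt (fun v => sp (Real.log v + L)) (stp (Real.log v + L) * (1 / v)) v :=
    (sp_hasDerivAt _).comp v (log_add_hasDerivAt hv L)
  have h3 : HasDerivAt (fun v => stp (Real.log v + L)) (rho (Real.log v + L) * (1 / v)) v :=
    (stp_hasDerivAt _).comp v (log_add_hasDerivAt hv L)
  have h2 : HasDerivAt (al1 L) _ v :=
    ((qq_hasDerivAt v).mul h1).neg.add ((cut_hasDerivAt v).mul h3)
  refine h2.congr_deriv ?_
  unfold al2
  have e : rh v = qq v / v := by unfold qq; field_simp
  rw [e]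
  field_simp
  ring

lemma afun_eq (n : ℕ) (L : ℝ) : afun n L = fun v => al L v / v ^ n := rfl

/-- the derivative of `a` -/
noncomputable def afun1 (n : ℕ) (L : ℝ) (v : ℝ) : ℝ := (al1 L v - n * al L v) / v ^ (n + 1)

/-- the second derivative of `a` -/
noncomputable def afun2 (n : ℕ) (L : ℝ) (v : ℝ) : ℝ :=
  ((al2 L v - n * al1 L v) - (n + 1 : ℕ) * (al1 L v - n * al L v)) / v ^ (n + 1 + 1)

lemma afun_hasDerivAt {v : ℝ} (hv : 0 < v) (n : ℕ) (L : ℝ) :
    HasDerivAt (afun n L) (afun1 n L v) v := theta_div hv (al_hasDerivAt hv L) n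

lemma afun1_hasDerivAt {v : ℝ} (hv : 0 < v) (n : ℕ) (L : ℝ) :
    HasDerivAt (afun1 n L) (afun2 n L v) v := by
  refine theta_div (α := fun v => al1 L v - n * al L v) (α1 := fun v => al2 L v - n * al1 L v) hv ?_
    (n + 1)
  have h : HasDerivAt (fun v => al1 L v - n * al L v) _ v :=
    (al1_hasDerivAt hv L).sub ((al_hasDerivAt hv L).const_mul (n : ℝ))
  refine h.congr_deriv ?_
  ring

lemma b1_hasDerivAt {v : ℝ} (hv : 0 < v) (n : ℕ) (L : ℝ) :
    HasDerivAt (fun v => L * (qq v / v ^ n)) (L * ((v * deriv qq v - n * qq v) / v ^ (n + 1))) v := by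
  refine HasDerivAt.const_mul L (theta_div (α := qq) (α1 := fun v => v * deriv qq v) hv ?_ n)
  refine (qq_hasDerivAt v).congr_deriv ?_
  field_simp

lemma b_hasDerivAt (v : ℝ) (n : ℕ) (L : ℝ) :
    HasDerivAt (fun v => L * bfun n v) (L * (qq v / v ^ n)) v :=
  (bfun_hasDerivAt n v).const_mul L

/-- the concentrated part of `∂∂̄ A` -/
noncomputable def PL (n : ℕ) (L v : ℝ) : ℝ := rho (Real.log v + L) / v ^ n

/-- the fixed part of `∂∂̄ A` -/
noncomputable def RR (n : ℕ) (v : ℝ) : ℝ :=
  (v * deriv qq v * (cs - Real.log v) - 2 * qq v) / v ^ n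

/-- threshold -/
noncomputable def L0 : ℝ := Real.log 64 + 1

lemma afun_zero (hn : n ≠ 0) {L v : ℝ} (hv : |v| < Real.exp (-L)) : afun n L v = 0 := by
  unfold afun
  rcases eq_or_ne v 0 with h | h
  · rw [h, zero_pow hn, div_zero]
  · have h1 : Real.log v + L < 0 := by
      rw [← Real.log_abs]
      have h2 := Real.log_lt_log (abs_pos.2 h) hv
      rw [Real.log_exp] at h2
      linarith
    rw [sp_of_nonpos h1.le]
    simp

lemma afun_contDiffAt (hn : n ≠ 0) (L : ℝ) {v : ℝ} (hv : 0 ≤ v) : ContDiffAt ℝ ∞ (afun n L) v := by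
  rcases hv.eq_or_lt with h | h
  · have : afun n L =ᶠ[𝓝 v] fun _ => 0 := by
      have h1 : ∀ᶠ y in 𝓝 v, |y| < Real.exp (-L) := by
        apply (continuous_abs.tendsto v).eventually_lt_const
        rw [← h, abs_zero]
        exact Real.exp_pos _
      filter_upwards [h1] with y hy
      exact afun_zero hn hy
    exact contDiffAt_const.congr_of_eventuallyEq this
  · unfold afun
    refine ContDiffAt.div ?_ (contDiffAt_id.pow n) (pow_ne_zero n h.ne')
    refine cut_contDiff.contDiffAt.mul ?_
    exact sp_contDiff.contDiffAt.comp v ((Real.contDiffAt_log.2 h.ne').add contDiffAt_const)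

/-- the local test matrix -/
noncomputable def tst (n : ℕ) (L : ℝ) (z : Cn n) : Matrix (Fin n) (Fin n) ℂ :=
  radMat (afun n L) (fun v => L * bfun n v) z

lemma tst_contDiff (hn : n ≠ 0) (L : ℝ) (j k : Fin n) : ContDiff ℝ ∞ fun z => tst n L z j k := by
  unfold tst
  simp only [radMat_apply]
  have h1 : ContDiff ℝ ∞ fun z : Cn n => afun n L (usq z) := by
    rw [contDiff_iff_contDiffAt]
    intro z
    exact (afun_contDiffAt hn L (usq_nonneg z)).comp z usq_contDiff.contDiffAt
  have h2 : ContDiff ℝ ∞ fun z : Cn n => L * bfun n (usq z) :=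
    contDiff_const.mul ((bfun_contDiff n).comp usq_contDiff)
  refine ContDiff.add ?_ ?_
  · exact (Complex.ofRealCLM.contDiff.comp h1).mul
      ((coord_contDiff j).mul (conj_coord_contDiff k))
  · by_cases h : j = k
    · simp only [h, if_true]
      exact Complex.ofRealCLM.contDiff.comp h2
    · simp only [h, if_false]
      exact contDiff_const

lemma divdiv_tst (hn : n ≠ 0) {L : ℝ} (hL : L0 ≤ L) (z : Cn n) :
    ∑ j, ∑ k, dz j (dzb k fun w => tst n L w j k) z =
      ((PL n L (usq z) + RR n (usq z) : ℝ) : ℂ) := by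
  have hL1 : 1 ≤ L := by
    have : 0 ≤ Real.log 64 := Real.log_nonneg (by norm_num)
    unfold L0 at hL
    linarith
  rcases eq_or_ne z 0 with hz | hz
  · -- near `0` the matrix vanishes
    have h0 : ∀ j k, (fun w => tst n L w j k) =ᶠ[𝓝 z] fun _ => 0 := by
      intro j k
      have h1 : ∀ᶠ w in 𝓝 z, usq w < min (Real.exp (-L)) (1 / 64) := by
        apply (continuous_usq.tendsto z).eventually_lt_const
        rw [hz, usq_zero]
        exact lt_min (Real.exp_pos _) (by norm_num)
      filter_upwards [h1] with w hw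
      unfold tst
      rw [radMat_apply, afun_zero hn, bfun_of_le]
      · simp
      · exact (hw.trans_le (min_le_right _ _)).le
      · rw [abs_of_nonneg (usq_nonneg w)]
        exact hw.trans_le (min_le_left _ _)
    have h2 : ∀ j k, dz j (dzb k fun w => tst n L w j k) z = 0 := by
      intro j k
      have h3 : dzb k (fun w => tst n L w j k) =ᶠ[𝓝 z] fun _ => 0 := by
        have := dzb_congr' (h0 j k) k
        filter_upwards [this] with w hw
        rw [hw, dzb_const]
      rw [dz_congr h3, dz_const]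
    simp_rw [h2]
    rw [hz, usq_zero]
    simp [PL, RR, hn]
  · have hu : 0 < usq z := usq_pos hz
    have hev : ∀ᶠ w in 𝓝 z, 0 < usq w := (continuous_usq.tendsto z).eventually_const_lt hu
    have h1 : ∀ᶠ w in 𝓝 z, HasDerivAt (afun n L) (afun1 n L (usq w)) (usq w) := by
      filter_upwards [hev] with w hw
      exact afun_hasDerivAt hw n L
    have h2 : ∀ᶠ w in 𝓝 z, HasDerivAt (fun v => L * bfun n v)
        ((fun v => L * (qq v / v ^ n)) (usq w)) (usq w) := by
      filter_upwards with w
      exact b_hasDerivAt _ n L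
    have h3 := divdiv_radMat (b2 := fun v => L * ((v * deriv qq v - n * qq v) / v ^ (n + 1)))
      h1 h2 (afun1_hasDerivAt hu n L) (b1_hasDerivAt hu n L)
    unfold tst
    rw [h3]
    congr 1
    set v := usq z with hv
    have e1 : (n : ℝ) ^ 2 * afun n L v + (2 * n + 1) * v * afun1 n L v + v ^ 2 * afun2 n L v =
        al2 L v / v ^ n := by
      unfold afun1 afun2
      rw [afun_eq]
      simp only
      push_cast
      field_simp
      ring
    have e2 : (n : ℝ) * (L * (qq v / v ^ n)) +
        v * (L * ((v * deriv qq v - n * qq v) / v ^ (n + 1))) = L * (v * deriv qq v) / v ^ n := by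
      field_simp
      ring
    have e3 : (n : ℝ) ^ 2 * afun n L v + (2 * n + 1) * v * afun1 n L v + v ^ 2 * afun2 n L v +
        n * (L * (qq v / v ^ n)) +
        v * (L * ((v * deriv qq v - n * qq v) / v ^ (n + 1))) =
        (al2 L v + L * (v * deriv qq v)) / v ^ n := by
      rw [add_assoc, e1, e2]
      ring
    rw [e3]
    unfold PL RR
    rw [← add_div]
    congr 1
    unfold al2
    rcases lt_or_ge v (1 / 64) with hlt | hge
    · rw [qq_zero (Or.inl hlt.le), dqq_zero (Or.inl hlt), cut_of_le hlt.le]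
      ring
    · have hlog : -Real.log 64 ≤ Real.log v := by
        have := Real.log_le_log (by norm_num) hge
        rw [one_div, Real.log_inv] at this
        exact this
      have h5 : 1 ≤ Real.log v + L := by
        unfold L0 at hL
        linarith
      rw [sp_of_one_le h5, stp_of_one_le h5, rho_zero (Or.inr h5)]
      ring

lemma tst_posSemidef {L : ℝ} (hL : 0 ≤ L) (z : Cn n) : (tst n L z).PosSemidef := by
  have ha : 0 ≤ afun n L (usq z) := by
    unfold afun
    have := cut_nonneg (usq z)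
    have := sp_nonneg (Real.log (usq z) + L)
    have := usq_nonneg z
    positivity
  have hb : 0 ≤ L * bfun n (usq z) := mul_nonneg hL (bfun_nonneg n _)
  have e : tst n L z = ((afun n L (usq z) : ℝ) : ℂ) • Matrix.vecMulVec z (star z) +
      ((L * bfun n (usq z) : ℝ) : ℂ) • (1 : Matrix (Fin n) (Fin n) ℂ) := by
    ext j k
    unfold tst
    rw [radMat_apply]
    simp only [Matrix.add_apply, Matrix.smul_apply, Matrix.vecMulVec_apply, Matrix.one_apply,
      Pi.star_apply, smul_eq_mul, RCLike.star_def]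
    by_cases h : j = k <;> simp [h]
  rw [e]
  refine Matrix.PosSemidef.add ?_ ?_
  · exact (Matrix.posSemidef_vecMulVec_self_star z).smul (by exact_mod_cast ha)
  · exact Matrix.PosSemidef.one.smul (by exact_mod_cast hb)

lemma tst_const {L : ℝ} {z : Cn n} (hz : 1 / 16 ≤ usq z) :
    tst n L z = ((L * bmax n : ℝ) : ℂ) • (1 : Matrix (Fin n) (Fin n) ℂ) := by
  ext j k
  unfold tst
  rw [radMat_apply, bfun_of_ge n hz]
  have : afun n L (usq z) = 0 := by
    unfold afun
    rw [cut_of_ge hz]
    simp
  rw [this]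
  simp only [Matrix.smul_apply, Matrix.one_apply, smul_eq_mul]
  by_cases h : j = k <;> simp [h]

end Pool.Agent.H32.Torus
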